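import Mathlib

set_option linter.unusedSectionVars false

/-!
# Restricted power series in one variable as a Banach algebra

`BQAff.S K` is the ring of restricted power series in one variable over a non-archimedean field,
realised on the Banach space of null sequences.
-/

open Filter Topology Finset
open scoped ZeroAtInfty

namespace BQAff

/-- Null sequences, to be equipped with the convolution product. -/
def S (K : Type*) [NontriviallyNormedField K] : Type _ := C₀(ℕ, K)

namespace S

section basic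

variable {K : Type*} [NontriviallyNormedField K]

noncomputable instance : NormedAddCommGroup (S K) :=
  inferInstanceAs (NormedAddCommGroup C₀(ℕ, K))

noncomputable instance : Module K (S K) := inferInstanceAs (Module K C₀(ℕ, K))

instance [CompleteSpace K] : CompleteSpace (S K) := inferInstanceAs (CompleteSpace C₀(ℕ, K))

/-- coefficients -/
def co (f : S K) (n : ℕ) : K := (show C₀(ℕ, K) from f) n

@[ext] theorem ext' {f g : S K} (h : ∀ n, f.co n = g.co n) : f = g :=
  ZeroAtInftyContinuousMap.ext (f := f) (g := g) h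

@[simp] theorem co_add (f g : S K) (n : ℕ) : (f + g).co n = f.co n + g.co n := rfl
@[simp] theorem co_sub (f g : S K) (n : ℕ) : (f - g).co n = f.co n - g.co n := rfl
@[simp] theorem co_neg (f : S K) (n : ℕ) : (-f).co n = -f.co n := rfl
@[simp] theorem co_zero (n : ℕ) : (0 : S K).co n = 0 := rfl
@[simp] theorem co_smul (c : K) (f : S K) (n : ℕ) : (c • f).co n = c * f.co n := rfl

theorem tendsto_co (f : S K) : Tendsto f.co cofinite (𝓝 0) := by
  have h := (show C₀(ℕ, K) from f).zero_at_infty'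
  rw [cocompact_eq_cofinite] at h
  exact h

/-- Constructor from a null sequence. -/
def ofSeq (a : ℕ → K) (h : Tendsto a cofinite (𝓝 0)) : S K :=
  (show C₀(ℕ, K) from ⟨⟨a, continuous_of_discreteTopology⟩, by
    rw [cocompact_eq_cofinite]; exact h⟩)

@[simp] theorem co_ofSeq (a : ℕ → K) (h : Tendsto a cofinite (𝓝 0)) (n : ℕ) :
    (ofSeq a h).co n = a n := rfl

theorem norm_le {f : S K} {C : ℝ} (hC : 0 ≤ C) : ‖f‖ ≤ C ↔ ∀ n, ‖f.co n‖ ≤ C := by
  have : ‖f‖ = ‖(show C₀(ℕ, K) from f).toBCF‖ := rfl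
  rw [this, BoundedContinuousFunction.norm_le hC]
  rfl

theorem norm_co_le (f : S K) (n : ℕ) : ‖f.co n‖ ≤ ‖f‖ :=
  (norm_le (norm_nonneg f)).1 le_rfl n

theorem finite_of_pos (f : S K) {ε : ℝ} (hε : 0 < ε) : {n | ε ≤ ‖f.co n‖}.Finite := by
  have h := f.tendsto_co.norm
  rw [norm_zero] at h
  have h2 := (h.eventually (gt_mem_nhds hε))
  rw [eventually_cofinite] at h2
  exact h2.subset (fun n hn => by simpa using hn)

/-- The norm is attained. -/
theorem exists_norm_eq (f : S K) : ∃ n, ‖f.co n‖ = ‖f‖ := by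
  by_cases hf : f = 0
  · subst hf; exact ⟨0, by simp⟩
  have hpos : 0 < ‖f‖ := norm_pos_iff.2 hf
  have hfin := f.finite_of_pos (half_pos hpos)
  have hne : {n | ‖f‖ / 2 ≤ ‖f.co n‖}.Nonempty := by
    by_contra hcon
    rw [Set.not_nonempty_iff_eq_empty] at hcon
    have : ‖f‖ ≤ ‖f‖ / 2 := (norm_le (by positivity)).2 (fun n => by
      by_contra hn
      have : n ∈ {n | ‖f‖ / 2 ≤ ‖f.co n‖} := (not_le.1 hn).le
      rw [hcon] at this
      exact this)
    linarith
  obtain ⟨n, hn, hmax⟩ := hfin.exists_maximalFor (fun n => ‖f.co n‖) _ hne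
  refine ⟨n, le_antisymm (f.norm_co_le n) ((norm_le (norm_nonneg _)).2 fun k => ?_)⟩
  by_cases hk : ‖f‖ / 2 ≤ ‖f.co k‖
  · rcases le_total ‖f.co k‖ ‖f.co n‖ with h | h
    · exact h
    · exact hmax hk h
  · exact (not_le.1 hk).le.trans hn

end basic

section ring

variable {K : Type*} [NontriviallyNormedField K] [IsUltrametricDist K]

theorem norm_sum_le_of {ι : Type*} (s : Finset ι) (f : ι → K) {C : ℝ} (hC : 0 ≤ C)
    (h : ∀ i ∈ s, ‖f i‖ ≤ C) : ‖∑ i ∈ s, f i‖ ≤ C :=
  IsUltrametricDist.norm_sum_le_of_forall_le_of_nonneg hC h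

theorem norm_sum_lt_of {ι : Type*} (s : Finset ι) (f : ι → K) {C : ℝ} (hC : 0 < C)
    (h : ∀ i ∈ s, ‖f i‖ < C) : ‖∑ i ∈ s, f i‖ < C := by
  classical
  induction s using Finset.induction_on with
  | empty => simpa using hC
  | insert a s ha ih =>
    rw [Finset.sum_insert ha]
    exact (IsUltrametricDist.norm_add_le_max _ _).trans_lt
      (max_lt (h a (mem_insert_self a s)) (ih (fun i hi => h i (mem_insert_of_mem hi))))

instance : IsUltrametricDist (S K) :=
  IsUltrametricDist.isUltrametricDist_of_forall_norm_add_le_max_norm (fun f g => by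
    refine (norm_le (le_max_of_le_left (norm_nonneg _))).2 (fun n => ?_)
    rw [co_add]
    exact (IsUltrametricDist.norm_add_le_max _ _).trans
      (max_le_max (f.norm_co_le n) (g.norm_co_le n)))

theorem tendsto_conv (f g : S K) :
    Tendsto (fun n => ∑ p ∈ antidiagonal n, f.co p.1 * g.co p.2) cofinite (𝓝 0) := by
  have h := MvPowerSeries.tendsto_antidiagonal (M := ℕ) (S := K) (C := fun _ => 1)
    (fun _ _ => by simp) (f := f.co) (g := g.co)
    (by simpa using f.tendsto_co.norm) (by simpa using g.tendsto_co.norm)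
  rw [tendsto_zero_iff_norm_tendsto_zero]
  simpa using h

noncomputable instance : Mul (S K) := ⟨fun f g => ofSeq _ (tendsto_conv f g)⟩

theorem co_mul (f g : S K) (n : ℕ) :
    (f * g).co n = ∑ p ∈ antidiagonal n, f.co p.1 * g.co p.2 := rfl

theorem tendsto_single (k : ℕ) (a : K) :
    Tendsto (fun n => if n = k then a else 0) cofinite (𝓝 0) := by
  refine tendsto_nhds_of_eventually_eq ?_
  rw [eventually_cofinite]
  refine (Set.finite_singleton k).subset (fun n hn => ?_)
  by_contra h
  exact hn (if_neg h)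

/-- The monomial `a x^k`. -/
noncomputable def mon (k : ℕ) (a : K) : S K := ofSeq _ (tendsto_single k a)

@[simp] theorem co_mon (k : ℕ) (a : K) (n : ℕ) : (mon k a).co n = if n = k then a else 0 := rfl

noncomputable instance : One (S K) := ⟨mon 0 1⟩

theorem co_one (n : ℕ) : (1 : S K).co n = if n = 0 then 1 else 0 := rfl

/-- The embedding into formal power series. -/
noncomputable def ps (f : S K) : PowerSeries K := PowerSeries.mk f.co

theorem coeff_ps (f : S K) (n : ℕ) : PowerSeries.coeff n f.ps = f.co n := by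
  simp [ps]

theorem ps_injective : Function.Injective (ps : S K → PowerSeries K) := by
  intro f g h
  ext n
  rw [← coeff_ps, ← coeff_ps, h]

theorem ps_zero : (0 : S K).ps = 0 := by ext n; simp [coeff_ps]

theorem ps_one : (1 : S K).ps = 1 := by
  ext n; rw [coeff_ps, co_one, PowerSeries.coeff_one]

theorem ps_add (f g : S K) : (f + g).ps = f.ps + g.ps := by ext n; simp [coeff_ps]

theorem ps_mul (f g : S K) : (f * g).ps = f.ps * g.ps := by
  ext n; rw [coeff_ps, co_mul, PowerSeries.coeff_mul]; simp [coeff_ps]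

theorem ps_neg (f : S K) : (-f).ps = -f.ps := by ext n; simp [coeff_ps]

theorem ps_sub (f g : S K) : (f - g).ps = f.ps - g.ps := by ext n; simp [coeff_ps]

theorem ps_smul (c : K) (f : S K) : (c • f).ps = c • f.ps := by ext n; simp [coeff_ps]

theorem ps_nsmul (c : ℕ) (f : S K) : (c • f).ps = c • f.ps := by
  induction c with
  | zero => rw [zero_smul, zero_smul]; exact ps_zero
  | succ n ih => rw [succ_nsmul, succ_nsmul, ps_add, ih]

theorem ps_zsmul (c : ℤ) (f : S K) : (c • f).ps = c • f.ps := by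
  rcases c with n | n
  · rw [Int.ofNat_eq_natCast, natCast_zsmul, natCast_zsmul, ps_nsmul]
  · rw [negSucc_zsmul, negSucc_zsmul, ps_neg, ps_nsmul]

noncomputable instance : NatCast (S K) := ⟨fun n => n • (1 : S K)⟩
noncomputable instance : IntCast (S K) := ⟨fun n => n • (1 : S K)⟩
noncomputable instance : Pow (S K) ℕ := ⟨fun f n => npowRec n f⟩

theorem ps_natCast (n : ℕ) : ((n : S K)).ps = n := by
  change (n • (1 : S K)).ps = n
  rw [ps_nsmul, ps_one, nsmul_one]

theorem ps_intCast (n : ℤ) : ((n : S K)).ps = n := by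
  change (n • (1 : S K)).ps = n
  rw [ps_zsmul, ps_one, zsmul_one]

theorem ps_pow (f : S K) (n : ℕ) : (f ^ n).ps = f.ps ^ n := by
  change (npowRec n f).ps = _
  induction n with
  | zero => rw [pow_zero]; exact ps_one
  | succ n ih =>
    rw [pow_succ, ← ih]
    exact ps_mul _ _

noncomputable instance : CommRing (S K) :=
  ps_injective.commRing ps ps_zero ps_one ps_add ps_mul ps_neg ps_sub ps_nsmul ps_zsmul ps_pow
    ps_natCast ps_intCast

theorem norm_mul_le' (f g : S K) : ‖f * g‖ ≤ ‖f‖ * ‖g‖ := by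
  refine (norm_le (by positivity)).2 (fun n => ?_)
  rw [co_mul]
  refine norm_sum_le_of _ _ (by positivity) (fun p _ => ?_)
  rw [norm_mul]
  exact mul_le_mul (f.norm_co_le _) (g.norm_co_le _) (norm_nonneg _) (norm_nonneg _)

noncomputable instance : NormedCommRing (S K) :=
  { (inferInstance : CommRing (S K)), (inferInstance : NormedAddCommGroup (S K)) with
    norm_mul_le := norm_mul_le' }

@[simp] theorem co_one' (n : ℕ) : (1 : S K).co n = if n = 0 then 1 else 0 := rfl

noncomputable instance : Algebra K (S K) :=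
  Algebra.ofModule (fun c f g => by
    ext n
    simp only [co_smul, co_mul, mul_sum]
    exact sum_congr rfl (fun p _ => by ring)) (fun c f g => by
    ext n
    simp only [co_smul, co_mul, mul_sum]
    exact sum_congr rfl (fun p _ => by ring))

theorem norm_smul_le' (c : K) (f : S K) : ‖c • f‖ ≤ ‖c‖ * ‖f‖ := by
  refine (norm_le (by positivity)).2 (fun n => ?_)
  rw [co_smul, norm_mul]
  exact mul_le_mul_of_nonneg_left (f.norm_co_le _) (norm_nonneg _)

noncomputable instance : NormedAlgebra K (S K) :=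
  { (inferInstance : Algebra K (S K)) with norm_smul_le := norm_smul_le' }

theorem co_algebraMap (c : K) (n : ℕ) :
    (algebraMap K (S K) c).co n = if n = 0 then c else 0 := by
  rw [Algebra.algebraMap_eq_smul_one, co_smul, co_one]
  split_ifs <;> simp

theorem norm_mon (k : ℕ) (a : K) : ‖mon k a‖ = ‖a‖ := by
  refine le_antisymm ((norm_le (norm_nonneg _)).2 (fun n => ?_)) ?_
  · rw [co_mon]; split_ifs <;> simp
  · have := (mon k a).norm_co_le k
    simpa using this

instance : NormOneClass (S K) := ⟨by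
  have : (1 : S K) = mon 0 1 := rfl
  rw [this, norm_mon, norm_one]⟩

/-- The variable. -/
noncomputable def x : S K := mon 1 1

theorem norm_x : ‖(x : S K)‖ = 1 := by rw [x, norm_mon, norm_one]

theorem co_x_mul_succ (f : S K) (n : ℕ) : (x * f).co (n + 1) = f.co n := by
  rw [co_mul, Finset.sum_eq_single (1, n)]
  · simp [x]
  · rintro ⟨i, j⟩ hij hne
    simp only [x, co_mon]
    rw [if_neg, zero_mul]
    rintro rfl
    apply hne
    rw [Finset.HasAntidiagonal.mem_antidiagonal] at hij; dsimp only at hij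
    rw [Prod.mk.injEq]
    exact ⟨rfl, by omega⟩
  · intro h
    exact absurd (by simp [add_comm]) h

theorem co_x_mul_zero (f : S K) : (x * f).co 0 = 0 := by
  rw [co_mul]
  simp [x]

/-- Division by the variable after dropping the constant coefficient. -/
noncomputable def shift (f : S K) : S K :=
  ofSeq (fun n => f.co (n + 1)) (f.tendsto_co.comp (add_left_injective 1).tendsto_cofinite)

@[simp] theorem co_shift (f : S K) (n : ℕ) : f.shift.co n = f.co (n + 1) := rfl

theorem eq_shift (f : S K) : f = algebraMap K (S K) (f.co 0) + x * f.shift := by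
  ext n
  rw [co_add, co_algebraMap]
  rcases n with _ | n
  · rw [co_x_mul_zero]; simp
  · rw [co_x_mul_succ]; simp

theorem norm_shift_le (f : S K) : ‖f.shift‖ ≤ ‖f‖ :=
  (norm_le (norm_nonneg _)).2 (fun _ => f.norm_co_le _)

theorem norm_algebraMap' (c : K) : ‖algebraMap K (S K) c‖ = ‖c‖ := by
  rw [norm_algebraMap, norm_one, mul_one]

/-! ### Dominant indices -/

/-- `D` is the last index at which the Gauss norm is attained. -/
def Hi (f : S K) (D : ℕ) : Prop := ‖f.co D‖ = ‖f‖ ∧ ∀ i, D < i → ‖f.co i‖ < ‖f‖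

/-- `D` is the first index at which the Gauss norm is attained. -/
def Lo (f : S K) (D : ℕ) : Prop := ‖f.co D‖ = ‖f‖ ∧ ∀ i, i < D → ‖f.co i‖ < ‖f‖

theorem exists_Lo (f : S K) : ∃ D, f.Lo D := by
  classical
  have h := f.exists_norm_eq
  refine ⟨Nat.find h, Nat.find_spec h, fun i hi => ?_⟩
  exact lt_of_le_of_ne (f.norm_co_le i) (Nat.find_min h hi)

theorem exists_Hi (f : S K) (hf : f ≠ 0) : ∃ D, f.Hi D := by
  have hpos : 0 < ‖f‖ := norm_pos_iff.2 hf
  have hfin := f.finite_of_pos hpos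
  obtain ⟨n0, hn0⟩ := f.exists_norm_eq
  obtain ⟨D, hD, hmax⟩ := hfin.exists_maximalFor (fun n => n) _ ⟨n0, hn0.ge⟩
  refine ⟨D, le_antisymm (f.norm_co_le D) hD, fun i hi => ?_⟩
  by_contra hcon
  exact absurd (hmax (j := i) (not_lt.1 hcon) hi.le) (not_le.2 hi)

theorem Lo.eq {f : S K} {D D' : ℕ} (h : f.Lo D) (h' : f.Lo D') : D = D' := by
  rcases lt_trichotomy D D' with h1 | h1 | h1
  · exact absurd h.1 (h'.2 _ h1).ne
  · exact h1
  · exact absurd h'.1 (h.2 _ h1).ne

theorem Hi.eq {f : S K} {D D' : ℕ} (h : f.Hi D) (h' : f.Hi D') : D = D' := by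
  rcases lt_trichotomy D D' with h1 | h1 | h1
  · exact absurd h'.1 (h.2 _ h1).ne
  · exact h1
  · exact absurd h.1 (h'.2 _ h1).ne

theorem Lo.le_Hi {f : S K} {D E : ℕ} (h : f.Lo D) (h' : f.Hi E) : D ≤ E := by
  by_contra hcon
  exact absurd h.1 (h'.2 _ (not_le.1 hcon)).ne

/-- Norm of a sum in which one term dominates. -/
theorem norm_sum_eq_of_dom {ι : Type*} [DecidableEq ι] (s : Finset ι) (f : ι → K) (i : ι)
    (hi : i ∈ s) (h : ∀ j ∈ s, j ≠ i → ‖f j‖ < ‖f i‖) : ‖∑ j ∈ s, f j‖ = ‖f i‖ := by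
  rw [← Finset.add_sum_erase s f hi]
  by_cases h0 : ‖f i‖ = 0
  · have hz : ∀ j ∈ s.erase i, f j = 0 := by
      intro j hj
      have := h j (mem_of_mem_erase hj) (ne_of_mem_erase hj)
      rw [h0] at this
      exact absurd this (not_lt.2 (norm_nonneg _))
    rw [Finset.sum_eq_zero hz, add_zero]
  · have hpos : 0 < ‖f i‖ := lt_of_le_of_ne (norm_nonneg _) (Ne.symm h0)
    have hlt : ‖∑ j ∈ s.erase i, f j‖ < ‖f i‖ :=
      norm_sum_lt_of _ _ hpos (fun j hj => h j (mem_of_mem_erase hj) (ne_of_mem_erase hj))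
    rw [IsUltrametricDist.norm_add_eq_max_of_norm_ne_norm hlt.ne', max_eq_left hlt.le]

theorem mul_Hi_aux {f g : S K} {D E : ℕ} (hf : f.Hi D) (hg : g.Hi E) (hf0 : f ≠ 0) (hg0 : g ≠ 0) :
    ‖(f * g).co (D + E)‖ = ‖f‖ * ‖g‖ ∧ ∀ n, D + E < n → ‖(f * g).co n‖ < ‖f‖ * ‖g‖ := by
  have hfp : 0 < ‖f‖ := norm_pos_iff.2 hf0
  have hgp : 0 < ‖g‖ := norm_pos_iff.2 hg0
  have key : ∀ i j, (D < i ∨ E < j) → ‖f.co i * g.co j‖ < ‖f‖ * ‖g‖ := by
    intro i j h
    rw [norm_mul]
    rcases h with h | h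
    · exact mul_lt_mul_of_lt_of_le_of_nonneg_of_pos (hf.2 i h) (g.norm_co_le j) (norm_nonneg _) hgp
    · exact mul_lt_mul_of_le_of_lt_of_nonneg_of_pos (f.norm_co_le i) (hg.2 j h) (norm_nonneg _) hfp
  constructor
  · rw [co_mul, norm_sum_eq_of_dom _ _ (D, E) (by simp)]
    · rw [norm_mul, hf.1, hg.1]
    · rintro ⟨i, j⟩ hij hne
      rw [norm_mul (f.co D), hf.1, hg.1]
      apply key
      rw [Finset.HasAntidiagonal.mem_antidiagonal] at hij; dsimp only at hij
      by_contra hcon
      push Not at hcon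
      apply hne
      rw [Prod.mk.injEq]
      omega
  · intro n hn
    rw [co_mul]
    refine norm_sum_lt_of _ _ (by positivity) (fun p hp => key _ _ ?_)
    rw [Finset.HasAntidiagonal.mem_antidiagonal] at hp
    by_contra hcon
    push Not at hcon
    omega

theorem norm_mul'' (f g : S K) : ‖f * g‖ = ‖f‖ * ‖g‖ := by
  by_cases hf : f = 0
  · subst hf; simp
  by_cases hg : g = 0
  · subst hg; simp
  obtain ⟨D, hD⟩ := exists_Hi f hf
  obtain ⟨E, hE⟩ := exists_Hi g hg
  refine le_antisymm (norm_mul_le' f g) ?_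
  rw [← (mul_Hi_aux hD hE hf hg).1]
  exact norm_co_le _ _

theorem mul_Hi {f g : S K} {D E : ℕ} (hf : f.Hi D) (hg : g.Hi E) (hf0 : f ≠ 0) (hg0 : g ≠ 0) :
    (f * g).Hi (D + E) := by
  have h := mul_Hi_aux hf hg hf0 hg0
  refine ⟨?_, ?_⟩
  · rw [norm_mul'', h.1]
  · rw [norm_mul'']; exact h.2

theorem mul_Lo {f g : S K} {D E : ℕ} (hf : f.Lo D) (hg : g.Lo E) (hf0 : f ≠ 0) (hg0 : g ≠ 0) :
    (f * g).Lo (D + E) := by
  have hfp : 0 < ‖f‖ := norm_pos_iff.2 hf0
  have hgp : 0 < ‖g‖ := norm_pos_iff.2 hg0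
  have key : ∀ i j, (i < D ∨ j < E) → ‖f.co i * g.co j‖ < ‖f‖ * ‖g‖ := by
    intro i j h
    rw [norm_mul]
    rcases h with h | h
    · exact mul_lt_mul_of_lt_of_le_of_nonneg_of_pos (hf.2 i h) (g.norm_co_le j) (norm_nonneg _) hgp
    · exact mul_lt_mul_of_le_of_lt_of_nonneg_of_pos (f.norm_co_le i) (hg.2 j h) (norm_nonneg _) hfp
  refine ⟨?_, ?_⟩
  · rw [norm_mul'', co_mul, norm_sum_eq_of_dom _ _ (D, E) (by simp)]
    · rw [norm_mul, hf.1, hg.1]
    · rintro ⟨i, j⟩ hij hne
      rw [norm_mul (f.co D), hf.1, hg.1]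
      apply key
      rw [Finset.HasAntidiagonal.mem_antidiagonal] at hij; dsimp only at hij
      by_contra hcon
      push Not at hcon
      apply hne
      rw [Prod.mk.injEq]
      omega
  · intro n hn
    rw [norm_mul'', co_mul]
    refine norm_sum_lt_of _ _ (by positivity) (fun p hp => key _ _ ?_)
    rw [Finset.HasAntidiagonal.mem_antidiagonal] at hp
    by_contra hcon
    push Not at hcon
    omega

instance : NoZeroDivisors (S K) := ⟨fun {f g} h => by
  by_contra hcon
  push Not at hcon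
  have h1 := norm_mul'' f g
  rw [h, norm_zero] at h1
  have := mul_pos (norm_pos_iff.2 hcon.1) (norm_pos_iff.2 hcon.2)
  linarith⟩

end ring

end S

end BQAff
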