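import Mathlib
import Pool.Agent.Lib.MP_d3e341_ag.OneVar

/-!
# Evaluation of restricted power series
-/

set_option linter.unusedSectionVars false

open Filter Topology Finset

namespace BQAff

section gen

variable {R : Type*} [NormedCommRing R] [IsUltrametricDist R] [CompleteSpace R]

theorem nonarchRing : NonarchimedeanRing R :=
  { (inferInstance : NonarchimedeanAddGroup R), (inferInstance : IsTopologicalRing R) with }

theorem summable_of_tendsto {ι : Type*} {F : ι → R} (h : Tendsto F cofinite (𝓝 0)) :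
    Summable F :=
  NonarchimedeanAddGroup.summable_of_tendsto_cofinite_zero h

theorem tsum_mul_tsum_conv {ι : Type*} [AddCommMonoid ι] [HasAntidiagonal ι] (F G : ι → R)
    (hF : Summable F) (hG : Summable G) :
    (∑' i, F i) * (∑' i, G i) = ∑' n, ∑ p ∈ HasAntidiagonal.antidiagonal n, F p.1 * G p.2 := by
  have := nonarchRing (R := R)
  exact hF.tsum_mul_tsum_eq_tsum_sum_antidiagonal hG (hF.mul_of_nonarchimedean hG)

theorem norm_tsum_le_of {ι : Type*} (F : ι → R) {C : ℝ} (hC : 0 ≤ C) (h : ∀ i, ‖F i‖ ≤ C) :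
    ‖∑' i, F i‖ ≤ C :=
  IsUltrametricDist.norm_tsum_le_of_forall_le_of_nonneg hC h

end gen

namespace S

variable {K : Type*} [NontriviallyNormedField K] [IsUltrametricDist K] [CompleteSpace K]

theorem tendsto_ev (c : K) (hc : ‖c‖ ≤ 1) (f : S K) :
    Tendsto (fun n => f.co n * c ^ n) cofinite (𝓝 0) := by
  rw [tendsto_zero_iff_norm_tendsto_zero]
  refine squeeze_zero (fun _ => norm_nonneg _) (fun n => ?_)
    (tendsto_zero_iff_norm_tendsto_zero.1 f.tendsto_co)
  rw [norm_mul, norm_pow]
  exact mul_le_of_le_one_right (norm_nonneg _) (pow_le_one₀ (norm_nonneg _) hc)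

/-- Evaluation at a point of the closed unit disc. -/
noncomputable def ev (c : K) (hc : ‖c‖ ≤ 1) : S K →+* K where
  toFun f := ∑' n, f.co n * c ^ n
  map_one' := by
    rw [tsum_eq_single 0]
    · simp
    · intro n hn; simp [hn]
  map_zero' := by simp
  map_add' f g := by
    simp only [co_add, add_mul]
    exact (summable_of_tendsto (tendsto_ev c hc f)).tsum_add
      (summable_of_tendsto (tendsto_ev c hc g))
  map_mul' f g := by
    rw [tsum_mul_tsum_conv _ _ (summable_of_tendsto (tendsto_ev c hc f))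
      (summable_of_tendsto (tendsto_ev c hc g))]
    refine tsum_congr (fun n => ?_)
    rw [co_mul, sum_mul]
    refine sum_congr rfl (fun p hp => ?_)
    rw [HasAntidiagonal.mem_antidiagonal] at hp
    rw [← hp, pow_add]
    ring

theorem ev_apply (c : K) (hc : ‖c‖ ≤ 1) (f : S K) : ev c hc f = ∑' n, f.co n * c ^ n := rfl

@[simp] theorem ev_algebraMap (c : K) (hc : ‖c‖ ≤ 1) (a : K) :
    ev c hc (algebraMap K (S K) a) = a := by
  rw [ev_apply, tsum_eq_single 0]
  · simp [co_algebraMap]
  · intro n hn; simp [co_algebraMap, hn]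

@[simp] theorem ev_x (c : K) (hc : ‖c‖ ≤ 1) : ev c hc (x : S K) = c := by
  rw [ev_apply, tsum_eq_single 1]
  · simp [x]
  · intro n hn; simp [x, hn]

theorem norm_ev_le (c : K) (hc : ‖c‖ ≤ 1) (f : S K) : ‖ev c hc f‖ ≤ ‖f‖ := by
  rw [ev_apply]
  refine norm_tsum_le_of _ (norm_nonneg _) (fun n => ?_)
  rw [norm_mul, norm_pow]
  exact (mul_le_of_le_one_right (norm_nonneg _) (pow_le_one₀ (norm_nonneg _) hc)).trans
    (f.norm_co_le n)

theorem ev_shift (c : K) (hc : ‖c‖ ≤ 1) (f : S K) :
    ev c hc f = f.co 0 + c * ev c hc f.shift := by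
  conv_lhs => rw [eq_shift f]
  rw [map_add, map_mul, ev_algebraMap, ev_x]

/-- Two zeros in the open disc push the first dominant index to at least 2. -/
theorem two_le_Lo {f : S K} (hf : f ≠ 0) {c : K} (hc0 : c ≠ 0) (hc : ‖c‖ < 1)
    (h0 : f.co 0 = 0) (h1 : ev c hc.le f = 0) {D : ℕ} (hD : f.Lo D) : 2 ≤ D := by
  have hpos : 0 < ‖f‖ := norm_pos_iff.2 hf
  by_contra hcon
  have : D = 0 ∨ D = 1 := by omega
  rcases this with rfl | rfl
  · have := hD.1
    rw [h0, norm_zero] at this
    exact hpos.ne this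
  · rw [ev_shift, h0, zero_add, mul_eq_zero] at h1
    have h2 := h1.resolve_left hc0
    rw [ev_shift] at h2
    have h3 : f.co 1 = -(c * ev c hc.le f.shift.shift) := by
      have : f.shift.co 0 = f.co 1 := rfl
      rw [← this]
      linear_combination h2
    have h4 : ‖f.co 1‖ < ‖f‖ := by
      rw [h3, norm_neg, norm_mul]
      calc ‖c‖ * ‖ev c hc.le f.shift.shift‖ ≤ ‖c‖ * ‖f‖ :=
            mul_le_mul_of_nonneg_left (((norm_ev_le c hc.le _).trans (norm_shift_le _)).trans
              (norm_shift_le _)) (norm_nonneg _)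
        _ < 1 * ‖f‖ := mul_lt_mul_of_pos_right hc hpos
        _ = ‖f‖ := one_mul _
    exact h4.ne hD.1

/-- If the dominant coefficient is the first one and the constant coefficient vanishes, the
value at a point of the open disc is as large as possible. -/
theorem norm_ev_of_dom {f : S K} (hf : f ≠ 0) {c : K} (hc : ‖c‖ < 1)
    (h0 : f.co 0 = 0) (h1 : ‖f.co 1‖ = ‖f‖) : ‖ev c hc.le f‖ = ‖c‖ * ‖f‖ := by
  have hpos : 0 < ‖f‖ := norm_pos_iff.2 hf
  rw [ev_shift, h0, zero_add, norm_mul, ev_shift]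
  congr 1
  have h2 : ‖c * ev c hc.le f.shift.shift‖ < ‖f.shift.co 0‖ := by
    rw [co_shift, zero_add, h1, norm_mul]
    calc ‖c‖ * ‖ev c hc.le f.shift.shift‖ ≤ ‖c‖ * ‖f‖ :=
          mul_le_mul_of_nonneg_left (((norm_ev_le c hc.le _).trans (norm_shift_le _)).trans
            (norm_shift_le _)) (norm_nonneg _)
      _ < 1 * ‖f‖ := mul_lt_mul_of_pos_right hc hpos
      _ = ‖f‖ := one_mul _
  rw [IsUltrametricDist.norm_add_eq_max_of_norm_ne_norm h2.ne', max_eq_left h2.le, co_shift,
    zero_add, h1]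

end S

end BQAff
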