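import Mathlib
import Pool.Agent.Lib.MP_d3e341_ag.EvalGen

/-!
# The affinoid algebra `K<x>[y]/(y^2 - d y - x^m)` as a Banach algebra
-/

set_option linter.unusedSectionVars false

open Filter Topology Finset

namespace BQAff

variable {K : Type*} [NontriviallyNormedField K] [IsUltrametricDist K]

/-- The Banach algebra `K<x>[y]/(y^2 - d y - x^m)`. -/
abbrev Q (K : Type*) [NontriviallyNormedField K] [IsUltrametricDist K] (m : ℕ) (d : K) : Type _ :=
  QuadraticAlgebra (S K) ((S.x : S K) ^ m) (algebraMap K (S K) d)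

namespace Q

variable {m : ℕ} {d : K}

/-- The additive embedding into the product. -/
noncomputable def toProd : Q K m d →+ S K × S K where
  toFun z := (z.re, z.im)
  map_zero' := rfl
  map_add' _ _ := rfl

theorem toProd_injective : Function.Injective (toProd (K := K) (m := m) (d := d)) := by
  intro z w h
  have h1 := congrArg Prod.fst h
  have h2 := congrArg Prod.snd h
  exact QuadraticAlgebra.ext h1 h2

noncomputable instance : NormedAddCommGroup (Q K m d) :=
  NormedAddCommGroup.induced (Q K m d) (S K × S K) toProd toProd_injective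

theorem norm_def (z : Q K m d) : ‖z‖ = max ‖z.re‖ ‖z.im‖ := rfl

theorem norm_re_le (z : Q K m d) : ‖z.re‖ ≤ ‖z‖ := le_max_left _ _

theorem norm_im_le (z : Q K m d) : ‖z.im‖ ≤ ‖z‖ := le_max_right _ _

instance : IsUltrametricDist (Q K m d) :=
  IsUltrametricDist.isUltrametricDist_of_forall_norm_add_le_max_norm (fun f g => by
    rw [norm_def]
    refine max_le ?_ ?_
    · exact (IsUltrametricDist.norm_add_le_max _ _).trans
        (max_le_max (norm_re_le f) (norm_re_le g))
    · exact (IsUltrametricDist.norm_add_le_max _ _).trans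
        (max_le_max (norm_im_le f) (norm_im_le g)))

theorem isometry_toProd : Isometry (toProd (K := K) (m := m) (d := d)) :=
  AddMonoidHomClass.isometry_of_norm _ (fun _ => rfl)

instance [CompleteSpace K] : CompleteSpace (Q K m d) := by
  have hsurj : Function.Surjective (toProd (K := K) (m := m) (d := d)) := fun p =>
    ⟨⟨p.1, p.2⟩, rfl⟩
  let e : Q K m d ≃ᵢ (S K × S K) :=
    { toEquiv := Equiv.ofBijective _ ⟨toProd_injective, hsurj⟩
      isometry_toFun := isometry_toProd }
  exact e.completeSpace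

theorem norm_xm : ‖((S.x : S K) ^ m)‖ = 1 := by
  induction m with
  | zero => rw [pow_zero]; exact norm_one
  | succ n ih => rw [pow_succ, S.norm_mul'', ih, S.norm_x, one_mul]

variable [hd : Fact (‖d‖ < 1)]

theorem norm_mul_le (z w : Q K m d) : ‖z * w‖ ≤ ‖z‖ * ‖w‖ := by
  rw [norm_def (z * w)]
  have h1 : ‖z.re * w.re‖ ≤ ‖z‖ * ‖w‖ := (S.norm_mul_le' _ _).trans
    (mul_le_mul (norm_re_le z) (norm_re_le w) (norm_nonneg _) (norm_nonneg _))
  have h2 : ‖z.re * w.im‖ ≤ ‖z‖ * ‖w‖ := (S.norm_mul_le' _ _).trans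
    (mul_le_mul (norm_re_le z) (norm_im_le w) (norm_nonneg _) (norm_nonneg _))
  have h3 : ‖z.im * w.re‖ ≤ ‖z‖ * ‖w‖ := (S.norm_mul_le' _ _).trans
    (mul_le_mul (norm_im_le z) (norm_re_le w) (norm_nonneg _) (norm_nonneg _))
  have h4 : ∀ c : S K, ‖c‖ ≤ 1 → ‖c * z.im * w.im‖ ≤ ‖z‖ * ‖w‖ := by
    intro c hc
    rw [S.norm_mul'', S.norm_mul'']
    refine mul_le_mul ?_ (norm_im_le w) (norm_nonneg _) (norm_nonneg _)
    exact (mul_le_of_le_one_left (norm_nonneg _) hc).trans (norm_im_le z)
  refine max_le ?_ ?_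
  · rw [QuadraticAlgebra.re_mul]
    exact (IsUltrametricDist.norm_add_le_max _ _).trans (max_le h1 (h4 _ norm_xm.le))
  · rw [QuadraticAlgebra.im_mul]
    refine (IsUltrametricDist.norm_add_le_max _ _).trans (max_le ?_ (h4 _ ?_))
    · exact (IsUltrametricDist.norm_add_le_max _ _).trans (max_le h2 h3)
    · rw [S.norm_algebraMap']; exact hd.out.le

noncomputable instance : NormedCommRing (Q K m d) :=
  { (inferInstance : CommRing (Q K m d)), (inferInstance : NormedAddCommGroup (Q K m d)) with
    norm_mul_le := norm_mul_le }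

instance : NormOneClass (Q K m d) := ⟨by
  change max ‖(1 : S K)‖ ‖(0 : S K)‖ = 1
  rw [norm_one, norm_zero]
  exact max_eq_left zero_le_one⟩

noncomputable instance : NormedAlgebra K (Q K m d) :=
  { (inferInstance : Algebra K (Q K m d)) with
    norm_smul_le := fun c z => by
      change max ‖c • z.re‖ ‖c • z.im‖ ≤ ‖c‖ * max ‖z.re‖ ‖z.im‖
      rw [norm_smul, norm_smul, mul_max_of_nonneg _ _ (norm_nonneg _)] }

end Q

end BQAff
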