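import Mathlib
import Pool.Agent.Lib.MP_d3e341_ag.Quad

/-!
# The two ideals are not isomorphic: the analytic part
-/

set_option linter.unusedSectionVars false

open Filter Topology Finset

namespace BQAff

variable {K : Type*} [NontriviallyNormedField K] [IsUltrametricDist K]

namespace S

theorem norm_add_eq {f g : S K} (h : ‖g‖ < ‖f‖) : ‖f + g‖ = ‖f‖ := by
  rw [IsUltrametricDist.norm_add_eq_max_of_norm_ne_norm h.ne', max_eq_left h.le]

theorem norm_add_eqK {f g : K} (h : ‖g‖ < ‖f‖) : ‖f + g‖ = ‖f‖ := by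
  rw [IsUltrametricDist.norm_add_eq_max_of_norm_ne_norm h.ne', max_eq_left h.le]

theorem Hi.add {f g : S K} {D : ℕ} (hf : f.Hi D) (h : ‖g‖ < ‖f‖) : (f + g).Hi D := by
  refine ⟨?_, fun i hi => ?_⟩
  · rw [norm_add_eq h, co_add, norm_add_eqK, hf.1]
    rw [hf.1]
    exact (g.norm_co_le D).trans_lt h
  · rw [norm_add_eq h, co_add]
    exact (IsUltrametricDist.norm_add_le_max _ _).trans_lt
      (max_lt (hf.2 i hi) ((g.norm_co_le i).trans_lt h))

theorem Lo.add {f g : S K} {D : ℕ} (hf : f.Lo D) (h : ‖g‖ < ‖f‖) : (f + g).Lo D := by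
  refine ⟨?_, fun i hi => ?_⟩
  · rw [norm_add_eq h, co_add, norm_add_eqK, hf.1]
    rw [hf.1]
    exact (g.norm_co_le D).trans_lt h
  · rw [norm_add_eq h, co_add]
    exact (IsUltrametricDist.norm_add_le_max _ _).trans_lt
      (max_lt (hf.2 i hi) ((g.norm_co_le i).trans_lt h))

theorem Hi.neg {f : S K} {D : ℕ} (hf : f.Hi D) : (-f).Hi D := by
  refine ⟨?_, fun i hi => ?_⟩
  · rw [norm_neg, co_neg, norm_neg, hf.1]
  · rw [norm_neg, co_neg, norm_neg]; exact hf.2 i hi

theorem Hi_algebraMap (c : K) (hc : c ≠ 0) : (algebraMap K (S K) c).Hi 0 := by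
  refine ⟨?_, fun i hi => ?_⟩
  · rw [norm_algebraMap', co_algebraMap, if_pos rfl]
  · rw [norm_algebraMap', co_algebraMap, if_neg hi.ne', norm_zero]
    exact norm_pos_iff.2 hc

theorem Lo_algebraMap (c : K) : (algebraMap K (S K) c).Lo 0 := by
  refine ⟨?_, fun i hi => absurd hi (Nat.not_lt_zero _)⟩
  rw [norm_algebraMap', co_algebraMap, if_pos rfl]

theorem Hi_x : (x : S K).Hi 1 := by
  refine ⟨?_, fun i hi => ?_⟩
  · rw [norm_x]; simp [x]
  · rw [norm_x]; simp [x, hi.ne']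

theorem Lo_x : (x : S K).Lo 1 := by
  refine ⟨?_, fun i hi => ?_⟩
  · rw [norm_x]; simp [x]
  · rw [norm_x]; simp [x, hi.ne]

theorem x_ne_zero : (x : S K) ≠ 0 := by
  intro h
  have := norm_x (K := K)
  rw [h, norm_zero] at this
  exact zero_ne_one this

theorem Hi_pow_x (m : ℕ) : ((x : S K) ^ m).Hi m := by
  induction m with
  | zero =>
    rw [pow_zero]
    have := Hi_algebraMap (1 : K) one_ne_zero
    rwa [map_one] at this
  | succ n ih =>
    rw [pow_succ]
    exact mul_Hi ih Hi_x (pow_ne_zero _ x_ne_zero) x_ne_zero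

theorem ev_zero [CompleteSpace K] (f : S K) (h : ‖(0 : K)‖ ≤ 1) : ev 0 h f = f.co 0 := by
  rw [ev_shift, zero_mul, add_zero]

end S

open S

/-- The parity argument. -/
theorem parity {m : ℕ} (hm : Odd m) (hm3 : 3 ≤ m) {d : K} (hd : ‖d‖ < 1) (a b : S K)
    (hne : a * a + algebraMap K (S K) d * a * b - x ^ m * b * b ≠ 0)
    (hLo : (a * a + algebraMap K (S K) d * a * b - x ^ m * b * b).Lo 2)
    (hHi : (a * a + algebraMap K (S K) d * a * b - x ^ m * b * b).Hi 2) :
    ‖b‖ < ‖a‖ ∧ ‖a.co 1‖ = ‖a‖ := by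
  have hxm : ‖(x : S K) ^ m‖ = 1 := Q.norm_xm
  have nD : ‖algebraMap K (S K) d‖ = ‖d‖ := norm_algebraMap' d
  have nA : ‖a * a‖ = ‖a‖ * ‖a‖ := norm_mul'' _ _
  have nC : ‖algebraMap K (S K) d * a * b‖ = ‖d‖ * ‖a‖ * ‖b‖ := by
    rw [norm_mul'', norm_mul'', nD]
  have nB : ‖x ^ m * b * b‖ = ‖b‖ * ‖b‖ := by
    rw [norm_mul'', norm_mul'', hxm, one_mul]
  have hxm0 : (x : S K) ^ m ≠ 0 := pow_ne_zero _ x_ne_zero
  rcases lt_trichotomy ‖a‖ ‖b‖ with hab | hab | hab
  · exfalso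
    have hb0 : b ≠ 0 := norm_pos_iff.1 ((norm_nonneg a).trans_lt hab)
    have hbp : 0 < ‖b‖ := norm_pos_iff.2 hb0
    obtain ⟨β, hβ⟩ := exists_Hi b hb0
    have h1 : (x ^ m * b * b).Hi (m + β + β) :=
      mul_Hi (mul_Hi (Hi_pow_x m) hβ hxm0 hb0) hβ (mul_ne_zero hxm0 hb0) hb0
    have h2 : ‖a * a + algebraMap K (S K) d * a * b‖ < ‖-(x ^ m * b * b)‖ := by
      rw [norm_neg, nB]
      refine (IsUltrametricDist.norm_add_le_max _ _).trans_lt (max_lt ?_ ?_)
      · rw [nA]; exact mul_lt_mul'' hab hab (norm_nonneg _) (norm_nonneg _)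
      · rw [nC]
        refine mul_lt_mul_of_pos_right ?_ hbp
        calc ‖d‖ * ‖a‖ ≤ 1 * ‖a‖ := mul_le_mul_of_nonneg_right hd.le (norm_nonneg _)
          _ < ‖b‖ := by rw [one_mul]; exact hab
    have h3 := h1.neg.add h2
    have h4 : -(x ^ m * b * b) + (a * a + algebraMap K (S K) d * a * b) =
        a * a + algebraMap K (S K) d * a * b - x ^ m * b * b := by ring
    rw [h4] at h3
    have := h3.eq hHi
    omega
  · exfalso
    have ha0 : a ≠ 0 := by
      rintro rfl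
      have hb : b = 0 := by rw [← norm_eq_zero, ← hab, norm_zero]
      subst hb
      simp at hne
    have hb0 : b ≠ 0 := by
      rw [← norm_pos_iff, ← hab]; exact norm_pos_iff.2 ha0
    have hap : 0 < ‖a‖ := norm_pos_iff.2 ha0
    obtain ⟨β, hβ⟩ := exists_Hi b hb0
    obtain ⟨α, hα⟩ := exists_Hi a ha0
    have h1 : (x ^ m * b * b).Hi (m + β + β) :=
      mul_Hi (mul_Hi (Hi_pow_x m) hβ hxm0 hb0) hβ (mul_ne_zero hxm0 hb0) hb0
    have h2 : (a * a).Hi (α + α) := mul_Hi hα hα ha0 ha0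
    have nB' : ‖x ^ m * b * b‖ = ‖a‖ * ‖a‖ := by rw [nB, ← hab]
    have nC' : ‖algebraMap K (S K) d * a * b‖ < ‖a‖ * ‖a‖ := by
      rw [nC, ← hab]
      refine mul_lt_mul_of_pos_right ?_ hap
      calc ‖d‖ * ‖a‖ < 1 * ‖a‖ := mul_lt_mul_of_pos_right hd hap
        _ = ‖a‖ := one_mul _
    have hle : ‖a * a + algebraMap K (S K) d * a * b - x ^ m * b * b‖ ≤ ‖a‖ * ‖a‖ := by
      rw [sub_eq_add_neg]
      refine (IsUltrametricDist.norm_add_le_max _ _).trans (max_le
        ((IsUltrametricDist.norm_add_le_max _ _).trans (max_le nA.le nC'.le)) ?_)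
      rw [norm_neg]; exact nB'.le
    -- the coefficient at the larger index is dominant
    have key : ∃ D, 2 < D ∧
        ‖(a * a + algebraMap K (S K) d * a * b - x ^ m * b * b).co D‖ = ‖a‖ * ‖a‖ := by
      rcases lt_or_ge (m + β + β) (α + α) with hlt | hge
      · refine ⟨α + α, by omega, ?_⟩
        have e1 : (a * a + algebraMap K (S K) d * a * b - x ^ m * b * b).co (α + α) =
            (a * a).co (α + α) + ((algebraMap K (S K) d * a * b).co (α + α)
              - (x ^ m * b * b).co (α + α)) := by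
          rw [co_sub, co_add]; ring
        rw [e1, norm_add_eqK, h2.1, nA]
        rw [h2.1, nA, sub_eq_add_neg]
        refine (IsUltrametricDist.norm_add_le_max _ _).trans_lt (max_lt ?_ ?_)
        · exact (norm_co_le _ _).trans_lt nC'
        · rw [norm_neg, ← nB']; exact h1.2 _ hlt
      · have hne' : m + β + β ≠ α + α := by
          obtain ⟨k, hk⟩ := hm
          omega
        have hlt : α + α < m + β + β := lt_of_le_of_ne hge (Ne.symm hne')
        refine ⟨m + β + β, by omega, ?_⟩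
        have e1 : (a * a + algebraMap K (S K) d * a * b - x ^ m * b * b).co (m + β + β) =
            -(x ^ m * b * b).co (m + β + β) + ((a * a).co (m + β + β)
              + (algebraMap K (S K) d * a * b).co (m + β + β)) := by
          rw [co_sub, co_add]; ring
        rw [e1, norm_add_eqK, norm_neg, h1.1, nB']
        rw [norm_neg, h1.1, nB']
        refine (IsUltrametricDist.norm_add_le_max _ _).trans_lt (max_lt ?_ ?_)
        · rw [← nA]; exact h2.2 _ hlt
        · exact (norm_co_le _ _).trans_lt nC'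
    obtain ⟨D, hD2, hD⟩ := key
    have := hHi.2 D hD2
    rw [hD] at this
    exact absurd hle (not_le.2 this)
  · refine ⟨hab, ?_⟩
    have ha0 : a ≠ 0 := norm_pos_iff.1 ((norm_nonneg b).trans_lt hab)
    have hap : 0 < ‖a‖ := norm_pos_iff.2 ha0
    obtain ⟨α, hα⟩ := exists_Lo a
    have h2 : (a * a).Lo (α + α) := mul_Lo hα hα ha0 ha0
    have h3 : ‖algebraMap K (S K) d * a * b - x ^ m * b * b‖ < ‖a * a‖ := by
      rw [nA, sub_eq_add_neg]
      refine (IsUltrametricDist.norm_add_le_max _ _).trans_lt (max_lt ?_ ?_)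
      · rw [nC]
        have h5 : ‖d‖ * ‖a‖ ≤ ‖a‖ := mul_le_of_le_one_left (norm_nonneg _) hd.le
        calc ‖d‖ * ‖a‖ * ‖b‖ ≤ ‖a‖ * ‖b‖ := mul_le_mul_of_nonneg_right h5 (norm_nonneg _)
          _ < ‖a‖ * ‖a‖ := mul_lt_mul_of_pos_left hab hap
      · rw [norm_neg, nB]; exact mul_lt_mul'' hab hab (norm_nonneg _) (norm_nonneg _)
    have h4 := h2.add h3
    have e4 : a * a + (algebraMap K (S K) d * a * b - x ^ m * b * b) =
        a * a + algebraMap K (S K) d * a * b - x ^ m * b * b := by ring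
    rw [e4] at h4
    have h5 := h4.eq hLo
    have : α = 1 := by omega
    rw [← this]
    exact hα.1

/-- The analytic heart: no pair `g, h` with the stated properties exists. -/
theorem contra [CompleteSpace K] {m : ℕ} (hm : Odd m) (hm3 : 3 ≤ m) {d : K} (hd0 : d ≠ 0)
    (hd : ‖d‖ < 1) {e : K} (he : e ^ 2 - d * e = d ^ m) (hen : ‖e‖ ≤ ‖d‖)
    (ga gb ha hb : S K) (c : K) (hc : c ≠ 0)
    (hprod : (ga * ga + algebraMap K (S K) d * ga * gb - x ^ m * gb * gb) *
      (ha * ha + algebraMap K (S K) d * ha * hb - x ^ m * hb * hb) =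
      (algebraMap K (S K) c * (x * (x - algebraMap K (S K) d))) *
      (algebraMap K (S K) c * (x * (x - algebraMap K (S K) d))))
    (hg0 : ga.co 0 = 0)
    (hg1 : ev d hd.le ga + e * ev d hd.le gb = 0)
    (hh0 : ha.co 0 + d * hb.co 0 = 0)
    (hh1 : ev d hd.le ha + (d - e) * ev d hd.le hb = 0) : False := by
  have h0le : ‖(0 : K)‖ ≤ 1 := by rw [norm_zero]; exact zero_le_one
  have hm0 : m ≠ 0 := by omega
  -- the right hand side
  have hX : (x - algebraMap K (S K) d : S K).Lo 1 ∧ (x - algebraMap K (S K) d : S K).Hi 1 := by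
    have : ‖-algebraMap K (S K) d‖ < ‖(x : S K)‖ := by
      rw [norm_neg, norm_algebraMap', norm_x]; exact hd
    rw [sub_eq_add_neg]
    exact ⟨Lo_x.add this, Hi_x.add this⟩
  have hX0 : (x - algebraMap K (S K) d : S K) ≠ 0 := by
    intro h
    have h1 := hX.1.1
    rw [h] at h1
    have h2 : (x - algebraMap K (S K) d : S K).co 1 = 1 := by
      rw [co_sub, co_algebraMap]; simp [x]
    rw [h] at h2
    exact zero_ne_one h2
  have hC0 : algebraMap K (S K) c ≠ 0 := by
    rw [← norm_pos_iff, norm_algebraMap']; exact norm_pos_iff.2 hc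
  have hxX0 : (x * (x - algebraMap K (S K) d) : S K) ≠ 0 := mul_ne_zero x_ne_zero hX0
  have hCx0 := mul_ne_zero hC0 hxX0
  have hLoR := mul_Lo (mul_Lo (Lo_algebraMap c) (mul_Lo Lo_x hX.1 x_ne_zero hX0) hC0 hxX0)
    (mul_Lo (Lo_algebraMap c) (mul_Lo Lo_x hX.1 x_ne_zero hX0) hC0 hxX0) hCx0 hCx0
  have hHiR := mul_Hi (mul_Hi (Hi_algebraMap c hc) (mul_Hi Hi_x hX.2 x_ne_zero hX0) hC0 hxX0)
    (mul_Hi (Hi_algebraMap c hc) (mul_Hi Hi_x hX.2 x_ne_zero hX0) hC0 hxX0) hCx0 hCx0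
  rw [← hprod] at hLoR hHiR
  have hne := mul_ne_zero hCx0 hCx0
  rw [← hprod] at hne
  set s := ga * ga + algebraMap K (S K) d * ga * gb - x ^ m * gb * gb with hs
  set t := ha * ha + algebraMap K (S K) d * ha * hb - x ^ m * hb * hb with ht
  have hs0 : s ≠ 0 := left_ne_zero_of_mul hne
  have ht0 : t ≠ 0 := right_ne_zero_of_mul hne
  -- zeros
  have hs1 : s.co 0 = 0 := by
    rw [← ev_zero s h0le, hs]
    simp only [map_sub, map_add, map_mul, map_pow, ev_x, ev_algebraMap]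
    rw [ev_zero ga, hg0, zero_pow hm0]
    ring
  have hs2 : ev d hd.le s = 0 := by
    have h1 : ev d hd.le ga = -(e * ev d hd.le gb) := by linear_combination hg1
    rw [hs]
    simp only [map_sub, map_add, map_mul, map_pow, ev_x, ev_algebraMap]
    rw [h1]
    linear_combination (ev d hd.le gb) ^ 2 * he
  have ht1 : t.co 0 = 0 := by
    rw [← ev_zero t h0le, ht]
    simp only [map_sub, map_add, map_mul, map_pow, ev_x, ev_algebraMap]
    rw [ev_zero ha, ev_zero hb, zero_pow hm0]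
    linear_combination (ha.co 0) * hh0
  have ht2 : ev d hd.le t = 0 := by
    have h1 : ev d hd.le ha = -((d - e) * ev d hd.le hb) := by linear_combination hh1
    rw [ht]
    simp only [map_sub, map_add, map_mul, map_pow, ev_x, ev_algebraMap]
    rw [h1]
    linear_combination (ev d hd.le hb) ^ 2 * he
  obtain ⟨D, hD⟩ := exists_Lo s
  obtain ⟨E, hE⟩ := exists_Lo t
  have hD2 := two_le_Lo hs0 hd0 hd hs1 hs2 hD
  have hE2 := two_le_Lo ht0 hd0 hd ht1 ht2 hE
  have hsum := (mul_Lo hD hE hs0 ht0).eq hLoR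
  have hDe : D = 2 := by omega
  have hEe : E = 2 := by omega
  obtain ⟨D', hD'⟩ := exists_Hi s hs0
  obtain ⟨E', hE'⟩ := exists_Hi t ht0
  have hsum' := (mul_Hi hD' hE' hs0 ht0).eq hHiR
  have i1 := hD.le_Hi hD'
  have i2 := hE.le_Hi hE'
  have hDe' : D' = 2 := by omega
  subst hDe hDe'
  obtain ⟨hba, ha1⟩ := parity hm hm3 hd ga gb hs0 hD hD'
  have hga0 : ga ≠ 0 := norm_pos_iff.1 ((norm_nonneg gb).trans_lt hba)
  have e1 := norm_ev_of_dom hga0 hd hg0 ha1
  have e2 : ev d hd.le ga = -(e * ev d hd.le gb) := by linear_combination hg1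
  rw [e2, norm_neg, norm_mul] at e1
  have e3 : ‖e‖ * ‖ev d hd.le gb‖ ≤ ‖d‖ * ‖gb‖ :=
    mul_le_mul hen (norm_ev_le _ _ _) (norm_nonneg _) (norm_nonneg _)
  have e4 : ‖d‖ * ‖gb‖ < ‖d‖ * ‖ga‖ := mul_lt_mul_of_pos_left hba (norm_pos_iff.2 hd0)
  linarith

end BQAff
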