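import Mathlib
import Pool.Agent.Lib.MP_d3e341_ag.Contra

/-!
# The contradiction, phrased inside `K<x>[y]/(y^2 - d y - x^m)`
-/

set_option linter.unusedSectionVars false

open Filter Topology Finset

namespace BQAff

variable {K : Type*} [NontriviallyNormedField K] [IsUltrametricDist K]

open S

section

variable {m : ℕ} {d : K}

/-- The coordinate `x`. -/
noncomputable def QX (m : ℕ) (d : K) : Q K m d := algebraMap (S K) (Q K m d) x

/-- The coordinate `y`. -/
noncomputable def QY (m : ℕ) (d : K) : Q K m d := QuadraticAlgebra.omega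

/-- The constants. -/
noncomputable def QC (m : ℕ) (d : K) : K →+* Q K m d := algebraMap K (Q K m d)

theorem QX_re : (QX m d).re = x := rfl
theorem QX_im : (QX m d).im = 0 := rfl
theorem QY_re : (QY m d).re = 0 := rfl
theorem QY_im : (QY m d).im = 1 := rfl
theorem QC_re (c : K) : (QC m d c).re = algebraMap K (S K) c := rfl
theorem QC_im (c : K) : (QC m d c).im = 0 := rfl

theorem QY_sq : QY m d ^ 2 - QC m d d * QY m d - QX m d ^ m = 0 := by
  have h : QX m d ^ m = algebraMap (S K) (Q K m d) (x ^ m) := (map_pow _ _ _).symm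
  have hre : (QX m d ^ m).re = x ^ m := by rw [h]; rfl
  have him : (QX m d ^ m).im = 0 := by rw [h]; rfl
  rw [pow_two]
  ext1
  · simp only [QuadraticAlgebra.re_sub, QuadraticAlgebra.re_mul, hre, QY_re, QY_im, QC_re, QC_im,
      QuadraticAlgebra.re_zero]
    ring
  · simp only [QuadraticAlgebra.im_sub, QuadraticAlgebra.im_mul, him, QY_re, QY_im, QC_re, QC_im,
      QuadraticAlgebra.im_zero]
    ring

end

theorem contraQ [CompleteSpace K] {m : ℕ} (hm : Odd m) (hm3 : 3 ≤ m) {d : K} (hd0 : d ≠ 0)
    (hd : ‖d‖ < 1) {e : K} (he : e ^ 2 - d * e = d ^ m) (hen : ‖e‖ ≤ ‖d‖)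
    {c0 c1 : K} (hc0 : c0 ≠ 0) (hc1 : c1 ≠ 0) (g h k l : Q K m d)
    (h1 : g * h = (QC m d c0 * QX m d) * (QC m d c1 * (QX m d - QC m d d)))
    (h2 : ∃ r1 r2, g = r1 * (QC m d c1 * (QX m d - QC m d d)) +
      r2 * (QC m d c1 * (QY m d - QC m d e)))
    (h3 : ∃ r1 r2, h = r1 * (QC m d c0 * QX m d) + r2 * (QC m d c0 * (QY m d - QC m d d)))
    (h4 : (QC m d c0 * QX m d) * k = (QC m d c0 * (QY m d - QC m d d)) * g)
    (h5 : (QC m d c1 * (QX m d - QC m d d)) * l = (QC m d c1 * (QY m d - QC m d e)) * h) :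
    False := by
  have h0le : ‖(0 : K)‖ ≤ 1 := by rw [norm_zero]; exact zero_le_one
  have cancel : ∀ {c : K}, c ≠ 0 → ∀ {a b : Q K m d}, QC m d c * a = QC m d c * b → a = b := by
    intro c hc a b hab
    have h := congrArg (fun z => QC m d c⁻¹ * z) hab
    simp only [← mul_assoc, ← map_mul, inv_mul_cancel₀ hc, map_one, one_mul] at h
    exact h
  have h4' : QX m d * k = (QY m d - QC m d d) * g := cancel hc0 (by rw [← mul_assoc, h4, mul_assoc])
  have h5' : (QX m d - QC m d d) * l = (QY m d - QC m d e) * h :=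
    cancel hc1 (by rw [← mul_assoc, h5, mul_assoc])
  refine contra hm hm3 hd0 hd he hen g.re g.im h.re h.im (c0 * c1) (mul_ne_zero hc0 hc1) ?_ ?_ ?_
    ?_ ?_
  · have hn := congrArg QuadraticAlgebra.norm h1
    have hr : (QC m d c0 * QX m d) * (QC m d c1 * (QX m d - QC m d d)) =
        algebraMap (S K) (Q K m d) (algebraMap K (S K) (c0 * c1) * (x * (x - algebraMap K (S K) d)))
        := by
      have e1 : ∀ c, QC m d c = algebraMap (S K) (Q K m d) (algebraMap K (S K) c) := fun c => rfl
      rw [map_mul (algebraMap (S K) (Q K m d)), map_mul (algebraMap (S K) (Q K m d)) x, map_sub,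
        ← e1, ← e1, map_mul (QC m d)]
      change _ = QC m d c0 * QC m d c1 * (QX m d * (QX m d - QC m d d))
      ring
    rw [hr, map_mul, QuadraticAlgebra.norm_algebraMap, QuadraticAlgebra.norm_def,
      QuadraticAlgebra.norm_def, pow_two] at hn
    exact hn
  · have him := congrArg QuadraticAlgebra.im h4'
    simp only [QuadraticAlgebra.im_mul, QuadraticAlgebra.im_sub, QuadraticAlgebra.re_sub, QX_re,
      QX_im, QY_re, QY_im, QC_re, QC_im] at him
    have : g.re = x * k.im := by linear_combination -him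
    rw [this, co_x_mul_zero]
  · obtain ⟨r1, r2, hg⟩ := h2
    have hre := congrArg (fun z => ev d hd.le (QuadraticAlgebra.re z)) hg
    have him := congrArg (fun z => ev d hd.le (QuadraticAlgebra.im z)) hg
    simp only [QuadraticAlgebra.im_mul, QuadraticAlgebra.re_mul, QuadraticAlgebra.im_sub,
      QuadraticAlgebra.re_sub, QuadraticAlgebra.im_add, QuadraticAlgebra.re_add, QX_re,
      QX_im, QY_re, QY_im, QC_re, QC_im, map_add, map_mul, map_sub, map_pow, map_zero, map_one,
      ev_x, ev_algebraMap] at hre him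
    linear_combination hre + e * him + (-(c1 * ev d hd.le r2.im)) * he
  · obtain ⟨r1, r2, hg⟩ := h3
    have hre := congrArg (fun z => ev 0 h0le (QuadraticAlgebra.re z)) hg
    have him := congrArg (fun z => ev 0 h0le (QuadraticAlgebra.im z)) hg
    have hm0 : (0 : K) ^ m = 0 := zero_pow (by omega)
    simp only [QuadraticAlgebra.im_mul, QuadraticAlgebra.re_mul, QuadraticAlgebra.im_sub,
      QuadraticAlgebra.re_sub, QuadraticAlgebra.im_add, QuadraticAlgebra.re_add, QX_re,
      QX_im, QY_re, QY_im, QC_re, QC_im, map_add, map_mul, map_sub, map_pow, map_zero, map_one,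
      ev_x, ev_algebraMap, hm0] at hre him
    rw [← ev_zero _ h0le, ← ev_zero _ h0le]
    linear_combination hre + d * him
  · have him := congrArg (fun z => ev d hd.le (QuadraticAlgebra.im z)) h5'
    simp only [QuadraticAlgebra.im_mul, QuadraticAlgebra.im_sub, QuadraticAlgebra.re_sub, QX_re,
      QX_im, QY_re, QY_im, QC_re, QC_im, map_add, map_mul, map_sub, map_zero, map_one,
      ev_x, ev_algebraMap] at him
    linear_combination -him

end BQAff
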