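import Mathlib

/-!
# Restricted power series and the Gauss norm

`K` is a field with a nontrivial non-archimedean absolute value (`NontriviallyNormedField K`,
`IsUltrametricDist K`); it is complete in the theorems (`CompleteSpace K`).
-/

set_option linter.unusedSectionVars false

open Filter Topology

universe u

namespace BQAff

section restricted

variable (K : Type u) [NontriviallyNormedField K] [IsUltrametricDist K]

theorem isRestricted_iff_tendsto {σ : Type*} (f : MvPowerSeries σ K) :
    MvPowerSeries.IsRestricted (fun _ : σ => (1 : ℝ)) f ↔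
      Tendsto (fun t : σ →₀ ℕ => MvPowerSeries.coeff t f) cofinite (𝓝 0) := by
  rw [MvPowerSeries.IsRestricted,
    tendsto_zero_iff_norm_tendsto_zero (f := fun t : σ →₀ ℕ => MvPowerSeries.coeff t f)]
  simp [Finsupp.prod]

theorem restricted_mul {σ : Type*} {f g : MvPowerSeries σ K}
    (hf : Tendsto (fun t : σ →₀ ℕ => MvPowerSeries.coeff t f) cofinite (𝓝 0))
    (hg : Tendsto (fun t : σ →₀ ℕ => MvPowerSeries.coeff t g) cofinite (𝓝 0)) :
    Tendsto (fun t : σ →₀ ℕ => MvPowerSeries.coeff t (f * g)) cofinite (𝓝 0) :=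
  (isRestricted_iff_tendsto K _).1 (MvPowerSeries.isRestricted.mul _
    ((isRestricted_iff_tendsto K f).2 hf) ((isRestricted_iff_tendsto K g).2 hg))

theorem restricted_add {σ : Type*} {f g : MvPowerSeries σ K}
    (hf : Tendsto (fun t : σ →₀ ℕ => MvPowerSeries.coeff t f) cofinite (𝓝 0))
    (hg : Tendsto (fun t : σ →₀ ℕ => MvPowerSeries.coeff t g) cofinite (𝓝 0)) :
    Tendsto (fun t : σ →₀ ℕ => MvPowerSeries.coeff t (f + g)) cofinite (𝓝 0) :=
  (isRestricted_iff_tendsto K _).1 (MvPowerSeries.isRestricted.add _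
    ((isRestricted_iff_tendsto K f).2 hf) ((isRestricted_iff_tendsto K g).2 hg))

theorem restricted_C {σ : Type*} (c : K) : Tendsto (fun t : σ →₀ ℕ =>
    MvPowerSeries.coeff t (algebraMap K (MvPowerSeries σ K) c)) cofinite (𝓝 0) :=
  (isRestricted_iff_tendsto K _).1 (MvPowerSeries.isRestricted_C _ c)

/-- The restricted power series `∑ a_t X^t`, `a_t ∈ K`, `a_t → 0`, in variables indexed by `σ`. -/
def restricted (σ : Type*) : Subalgebra K (MvPowerSeries σ K) where
  carrier := {f | Tendsto (fun t : σ →₀ ℕ => MvPowerSeries.coeff t f) cofinite (𝓝 0)}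
  mul_mem' := restricted_mul K
  add_mem' := restricted_add K
  algebraMap_mem' := restricted_C K

theorem mem_restricted {σ : Type*} (f : MvPowerSeries σ K) :
    f ∈ restricted K σ ↔
      Tendsto (fun t : σ →₀ ℕ => MvPowerSeries.coeff t f) cofinite (𝓝 0) := Iff.rfl

/-- The algebra of restricted power series in variables indexed by `σ`. -/
def Res (σ : Type*) : Type _ := ↥(restricted K σ)

noncomputable instance (σ : Type*) : CommRing (Res K σ) :=
  Subalgebra.toCommRing (restricted K σ)

noncomputable instance (σ : Type*) : Algebra K (Res K σ) :=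
  Subalgebra.algebra (restricted K σ)

/-- The Tate algebra `K⟨T_0, …, T_{n-1}⟩`. -/
abbrev Tate (n : ℕ) : Type u := Res K (Fin n)

end restricted

variable {K : Type u} [NontriviallyNormedField K] [IsUltrametricDist K]

section gauss

variable {σ : Type*}

/-- The `t`-th coefficient. -/
noncomputable def cf (t : σ →₀ ℕ) (f : Res K σ) : K := MvPowerSeries.coeff t f.1

/-- The Gauss norm. -/
noncomputable def gauss (f : Res K σ) : ℝ := ⨆ t : σ →₀ ℕ, ‖cf t f‖

theorem tendsto_cf (f : Res K σ) : Tendsto (fun t : σ →₀ ℕ => cf t f) cofinite (𝓝 0) := f.2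

theorem bdd_coeff (f : Res K σ) : BddAbove (Set.range fun t : σ →₀ ℕ => ‖cf t f‖) :=
  (tendsto_zero_iff_norm_tendsto_zero.1 (tendsto_cf f)).bddAbove_range_of_cofinite

theorem norm_cf_le_gauss (f : Res K σ) (t : σ →₀ ℕ) : ‖cf t f‖ ≤ gauss f := le_ciSup (bdd_coeff f) t

theorem gauss_le {f : Res K σ} {C : ℝ} (h : ∀ t, ‖cf t f‖ ≤ C) : gauss f ≤ C := ciSup_le h

theorem gauss_nonneg (f : Res K σ) : 0 ≤ gauss f :=
  (norm_nonneg _).trans (norm_cf_le_gauss f 0)

theorem cf_add (f g : Res K σ) (t : σ →₀ ℕ) : cf t (f + g) = cf t f + cf t g := rfl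

theorem cf_neg (f : Res K σ) (t : σ →₀ ℕ) : cf t (-f) = -cf t f := by
  change MvPowerSeries.coeff t (-f.1) = _
  rw [map_neg]
  rfl

theorem cf_zero (t : σ →₀ ℕ) : cf t (0 : Res K σ) = 0 := by
  change MvPowerSeries.coeff t (0 : MvPowerSeries σ K) = 0
  rw [map_zero]

theorem cf_ext {f g : Res K σ} (h : ∀ t, cf t f = cf t g) : f = g :=
  Subtype.ext (MvPowerSeries.ext h)

theorem cf_mul [DecidableEq σ] (f g : Res K σ) (t : σ →₀ ℕ) :
    cf t (f * g) = ∑ p ∈ Finset.HasAntidiagonal.antidiagonal t, cf p.1 f * cf p.2 g := by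
  change MvPowerSeries.coeff t (f.1 * g.1) = _
  rw [MvPowerSeries.coeff_mul]
  rfl

theorem cf_algebraMap [DecidableEq σ] (c : K) (t : σ →₀ ℕ) :
    cf t (algebraMap K (Res K σ) c) = if t = 0 then c else 0 := by
  change MvPowerSeries.coeff t (MvPowerSeries.C c) = _
  rw [MvPowerSeries.coeff_C]

theorem cf_one [DecidableEq σ] (t : σ →₀ ℕ) :
    cf t (1 : Res K σ) = if t = 0 then 1 else 0 := by
  change MvPowerSeries.coeff t (1 : MvPowerSeries σ K) = _
  rw [MvPowerSeries.coeff_one]

theorem gauss_add_le (f g : Res K σ) : gauss (f + g) ≤ max (gauss f) (gauss g) :=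
  gauss_le (fun t => (IsUltrametricDist.norm_add_le_max _ _).trans
    (max_le_max (norm_cf_le_gauss f t) (norm_cf_le_gauss g t)))

theorem gauss_mul_le (f g : Res K σ) : gauss (f * g) ≤ gauss f * gauss g := by
  classical
  refine gauss_le (fun t => ?_)
  rw [cf_mul]
  refine IsUltrametricDist.norm_sum_le_of_forall_le_of_nonneg
    (mul_nonneg (gauss_nonneg f) (gauss_nonneg g)) (fun p _ => ?_)
  rw [norm_mul]
  exact mul_le_mul (norm_cf_le_gauss f _) (norm_cf_le_gauss g _) (norm_nonneg _)
    (gauss_nonneg f)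

/-- The Gauss norm as a group norm. -/
noncomputable def gaussGN (σ : Type*) : AddGroupNorm (Res K σ) where
  toFun := gauss
  map_zero' := le_antisymm (gauss_le (fun t => by rw [cf_zero, norm_zero])) (gauss_nonneg _)
  add_le' f g := (gauss_add_le f g).trans
    (max_le_add_of_nonneg (gauss_nonneg f) (gauss_nonneg g))
  neg' f := by simp only [gauss, cf_neg, norm_neg]
  eq_zero_of_map_eq_zero' f hf := by
    refine cf_ext (fun t => ?_)
    have h := norm_cf_le_gauss f t
    rw [hf] at h
    rw [cf_zero]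
    exact norm_le_zero_iff.1 h

noncomputable instance : NormedAddCommGroup (Res K σ) :=
  (gaussGN σ).toNormedAddCommGroup

/-- The Tate algebra with the Gauss norm. -/
noncomputable instance : NormedCommRing (Res K σ) :=
  { (inferInstance : CommRing (Res K σ)),
    (inferInstance : NormedAddCommGroup (Res K σ)) with
    norm_mul_le := gauss_mul_le }

theorem norm_eq_gauss (f : Res K σ) : ‖f‖ = gauss f := rfl

instance : IsUltrametricDist (Res K σ) :=
  IsUltrametricDist.isUltrametricDist_of_forall_norm_add_le_max_norm gauss_add_le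

end gauss

end BQAff
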