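import Mathlib
import Pool.Agent.Lib.MP_d3e341_ag.Tate

/-!
# Affinoid algebras, smoothness, restricted power series over an affinoid algebra
-/

set_option linter.unusedSectionVars false

open Filter Topology
open scoped TensorProduct

universe u

namespace BQAff

variable {K : Type u} [NontriviallyNormedField K] [IsUltrametricDist K] {n : ℕ}

theorem pderiv_mem {σ : Type*} (i : σ) (f : MvPowerSeries σ K) (hf : f ∈ restricted K σ) :
    MvPowerSeries.pderiv K i f ∈ restricted K σ := by
  rw [mem_restricted] at *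
  have hinj : Function.Injective (fun t : σ →₀ ℕ => t + Finsupp.single i 1) :=
    add_left_injective _
  have h := hf.comp hinj.tendsto_cofinite
  rw [tendsto_zero_iff_norm_tendsto_zero] at *
  refine squeeze_zero (fun _ => norm_nonneg _) (fun t => ?_) h
  rw [MvPowerSeries.coeff_pderiv, norm_mul]
  refine mul_le_of_le_one_right (norm_nonneg _) ?_
  have := IsUltrametricDist.norm_natCast_le_one K (t i + 1)
  push_cast at this
  exact this

/-- The partial derivative `∂/∂T_i` of restricted power series. -/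
noncomputable def pd (i : Fin n) (f : Tate K n) : Tate K n :=
  ⟨MvPowerSeries.pderiv K i f.1, pderiv_mem i f.1 f.2⟩

/-- The affinoid algebra `A = K⟨T_0, …, T_{n-1}⟩ / I`. -/
def Aff (I : Ideal (Tate K n)) : Type u := Tate K n ⧸ I

noncomputable instance (I : Ideal (Tate K n)) : CommRing (Aff I) :=
  Ideal.Quotient.commRing I

/-- The projection `K⟨T_0, …, T_{n-1}⟩ → A`. -/
noncomputable def mkA (I : Ideal (Tate K n)) : Tate K n →+* Aff I := Ideal.Quotient.mk I

/-- The residue norm on `A`: the infimum of the Gauss norms of the representatives. -/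
noncomputable def resNorm (I : Ideal (Tate K n)) (a : Aff I) : ℝ :=
  sInf (gauss '' {f | mkA I f = a})

theorem mkA_surjective (I : Ideal (Tate K n)) : Function.Surjective (mkA I) :=
  Ideal.Quotient.mk_surjective

theorem bddBelow_gauss (s : Set (Tate K n)) : BddBelow (gauss '' s) :=
  ⟨0, by rintro _ ⟨f, -, rfl⟩; exact gauss_nonneg f⟩

theorem resNorm_nonneg (I : Ideal (Tate K n)) (a : Aff I) : 0 ≤ resNorm I a :=
  Real.sInf_nonneg (by rintro _ ⟨f, -, rfl⟩; exact gauss_nonneg f)

theorem resNorm_mkA_le (I : Ideal (Tate K n)) (f : Tate K n) : resNorm I (mkA I f) ≤ gauss f :=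
  csInf_le (bddBelow_gauss _) ⟨f, rfl, rfl⟩

theorem exists_lift_lt (I : Ideal (Tate K n)) (a : Aff I) {ε : ℝ} (hε : 0 < ε) :
    ∃ f, mkA I f = a ∧ gauss f < resNorm I a + ε := by
  obtain ⟨f0, hf0⟩ := mkA_surjective I a
  obtain ⟨_, ⟨f, hf, rfl⟩, hlt⟩ := exists_lt_of_csInf_lt (s := gauss '' {f | mkA I f = a})
    ⟨_, f0, hf0, rfl⟩ (lt_add_of_pos_right (resNorm I a) hε)
  exact ⟨f, hf, hlt⟩

theorem exists_lift (I : Ideal (Tate K n)) (a : ℕ → Aff I)
    (ha : Tendsto (fun i => resNorm I (a i)) atTop (𝓝 0)) :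
    ∃ f : ℕ → Tate K n, (∀ i, mkA I (f i) = a i) ∧ Tendsto f atTop (𝓝 0) := by
  choose f hf hlt using fun i : ℕ => exists_lift_lt I (a i) (ε := 1 / ((i : ℝ) + 1))
    (by positivity)
  refine ⟨f, hf, ?_⟩
  rw [tendsto_zero_iff_norm_tendsto_zero]
  have h := ha.add (tendsto_one_div_add_atTop_nhds_zero_nat (𝕜 := ℝ))
  rw [add_zero] at h
  exact squeeze_zero (fun _ => norm_nonneg _) (fun i => (hlt i).le) h

theorem tendsto_resNorm (I : Ideal (Tate K n)) {f : ℕ → Tate K n} (hf : Tendsto f atTop (𝓝 0)) :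
    Tendsto (fun i => resNorm I (mkA I (f i))) atTop (𝓝 0) := by
  rw [tendsto_zero_iff_norm_tendsto_zero] at hf
  exact squeeze_zero (fun _ => resNorm_nonneg I _) (fun i => resNorm_mkA_le I _) hf

theorem resNorm_zero (I : Ideal (Tate K n)) : resNorm I 0 = 0 := by
  refine le_antisymm ?_ (resNorm_nonneg I 0)
  have h := resNorm_mkA_le I 0
  rw [map_zero] at h
  refine h.trans (le_of_eq ?_)
  rw [← norm_eq_gauss, norm_zero]

theorem restrictedT_mul (I : Ideal (Tate K n)) {F G : PowerSeries (Aff I)}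
    (hF : Tendsto (fun i => resNorm I (PowerSeries.coeff i F)) atTop (𝓝 0))
    (hG : Tendsto (fun i => resNorm I (PowerSeries.coeff i G)) atTop (𝓝 0)) :
    Tendsto (fun i => resNorm I (PowerSeries.coeff i (F * G))) atTop (𝓝 0) := by
  obtain ⟨f, hf, hf0⟩ := exists_lift I _ hF
  obtain ⟨g, hg, hg0⟩ := exists_lift I _ hG
  have h : ∀ i, PowerSeries.coeff i (F * G) =
      mkA I (∑ p ∈ Finset.HasAntidiagonal.antidiagonal i, f p.1 * g p.2) := fun i => by
    rw [PowerSeries.coeff_mul, map_sum]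
    refine Finset.sum_congr rfl (fun p _ => ?_)
    rw [map_mul, hf, hg]
  simp only [h]
  refine tendsto_resNorm I ?_
  rw [tendsto_zero_iff_norm_tendsto_zero] at *
  have h1 := MvPowerSeries.tendsto_antidiagonal (M := ℕ) (C := fun _ => (1 : ℝ)) (by simp)
    (f := f) (g := g) (by simpa [Nat.cofinite_eq_atTop] using hf0)
    (by simpa [Nat.cofinite_eq_atTop] using hg0)
  simpa [Nat.cofinite_eq_atTop] using h1

theorem restrictedT_add (I : Ideal (Tate K n)) {F G : PowerSeries (Aff I)}
    (hF : Tendsto (fun i => resNorm I (PowerSeries.coeff i F)) atTop (𝓝 0))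
    (hG : Tendsto (fun i => resNorm I (PowerSeries.coeff i G)) atTop (𝓝 0)) :
    Tendsto (fun i => resNorm I (PowerSeries.coeff i (F + G))) atTop (𝓝 0) := by
  obtain ⟨f, hf, hf0⟩ := exists_lift I _ hF
  obtain ⟨g, hg, hg0⟩ := exists_lift I _ hG
  have h : ∀ i, PowerSeries.coeff i (F + G) = mkA I (f i + g i) := fun i => by
    rw [map_add, map_add, hf, hg]
  simp only [h]
  have h2 := hf0.add hg0
  rw [add_zero] at h2
  exact tendsto_resNorm I h2

theorem restrictedT_C (I : Ideal (Tate K n)) (a : Aff I) :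
    Tendsto (fun i => resNorm I (PowerSeries.coeff i
      (algebraMap (Aff I) (PowerSeries (Aff I)) a))) atTop (𝓝 0) := by
  refine tendsto_const_nhds.congr' ?_
  filter_upwards [eventually_gt_atTop 0] with i hi
  rw [PowerSeries.algebraMap_apply, PowerSeries.coeff_C, if_neg hi.ne', resNorm_zero]

/-- The restricted power series `∑ a_i T^i` over the affinoid algebra `A`: `a_i ∈ A` and
`a_i → 0` for the residue norm. -/
def restrictedT (I : Ideal (Tate K n)) : Subalgebra (Aff I) (PowerSeries (Aff I)) where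
  carrier := {F | Tendsto (fun i => resNorm I (PowerSeries.coeff i F)) atTop (𝓝 0)}
  mul_mem' := restrictedT_mul I
  add_mem' := restrictedT_add I
  algebraMap_mem' := restrictedT_C I

/-- The ring `A⟨T⟩` of restricted power series over the affinoid algebra `A`. -/
def AffT (I : Ideal (Tate K n)) : Type u := ↥(restrictedT I)

noncomputable instance (I : Ideal (Tate K n)) : CommRing (AffT I) :=
  Subalgebra.toCommRing (restrictedT I)

noncomputable instance (I : Ideal (Tate K n)) : Algebra (Aff I) (AffT I) :=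
  Subalgebra.algebra (restrictedT I)

/-- The Jacobian minor of `g_1, …, g_r` for the variables `T_{j_1}, …, T_{j_r}`. -/
noncomputable def jac {r : ℕ} (g : Fin r → Tate K n) (j : Fin r → Fin n) : Tate K n :=
  Matrix.det (Matrix.of fun a b : Fin r => pd (j b) (g a))

/-- Smoothness of the affinoid space `Sp (K⟨T⟩/I)` over `K`, by the Jacobian criterion: at every
point (maximal ideal `𝔪 ⊇ I`) the ideal `I` is locally generated by `r` elements
`g_1, …, g_r` one of whose `r × r` Jacobian minors does not vanish at the point. -/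
def IsSmooth (I : Ideal (Tate K n)) : Prop :=
  ∀ 𝔪 : Ideal (Tate K n), 𝔪.IsMaximal → I ≤ 𝔪 →
    ∃ (r : ℕ) (g : Fin r → Tate K n) (j : Fin r → Fin n),
      (∀ a, g a ∈ I) ∧
      (∀ h ∈ I, ∃ s : Tate K n, s ∉ 𝔪 ∧ s * h ∈ Ideal.span (Set.range g)) ∧
      jac g j ∉ 𝔪

/-- The `A⟨T⟩`-module `M` is extended from `A`: `M ≅ A⟨T⟩ ⊗_A N` for some `A`-module `N`. -/
def IsExtended (I : Ideal (Tate K n)) (M : Type u) [AddCommGroup M] [Module (AffT I) M] : Prop :=
  ∃ (N : Type u) (_ : AddCommGroup N) (_ : Module (Aff I) N),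
    Nonempty (M ≃ₗ[AffT I] (AffT I ⊗[Aff I] N))

/-- The coefficients of an element of `A⟨T⟩`. -/
noncomputable def cfT {I : Ideal (Tate K n)} (i : ℕ) (F : AffT I) : Aff I :=
  PowerSeries.coeff i F.1

theorem tendsto_cfT {I : Ideal (Tate K n)} (F : AffT I) :
    Tendsto (fun i => resNorm I (cfT i F)) atTop (𝓝 0) := F.2

theorem cfT_zero {I : Ideal (Tate K n)} (i : ℕ) : cfT i (0 : AffT I) = 0 := by
  change PowerSeries.coeff i (0 : PowerSeries (Aff I)) = 0
  rw [map_zero]

theorem cfT_one {I : Ideal (Tate K n)} (i : ℕ) :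
    cfT i (1 : AffT I) = if i = 0 then 1 else 0 := by
  change PowerSeries.coeff i (1 : PowerSeries (Aff I)) = _
  rw [PowerSeries.coeff_one]

theorem cfT_add {I : Ideal (Tate K n)} (i : ℕ) (F G : AffT I) :
    cfT i (F + G) = cfT i F + cfT i G := by
  change PowerSeries.coeff i (F.1 + G.1) = _
  rw [map_add]
  rfl

theorem cfT_mul {I : Ideal (Tate K n)} (i : ℕ) (F G : AffT I) :
    cfT i (F * G) = ∑ p ∈ Finset.HasAntidiagonal.antidiagonal i, cfT p.1 F * cfT p.2 G := by
  change PowerSeries.coeff i (F.1 * G.1) = _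
  rw [PowerSeries.coeff_mul]
  rfl

theorem cfT_algebraMap {I : Ideal (Tate K n)} (i : ℕ) (a : Aff I) :
    cfT i (algebraMap (Aff I) (AffT I) a) = if i = 0 then a else 0 := by
  change PowerSeries.coeff i (algebraMap (Aff I) (PowerSeries (Aff I)) a) = _
  rw [PowerSeries.algebraMap_apply, PowerSeries.coeff_C]
  rfl

theorem cfT_ext {I : Ideal (Tate K n)} {F G : AffT I} (h : ∀ i, cfT i F = cfT i G) : F = G :=
  Subtype.ext (PowerSeries.ext h)

end BQAff
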