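import Mathlib

/-!
# The algebraic part: specialisations of an extended module of rank one
-/

open scoped TensorProduct

namespace BQAff

section

variable {A B R : Type*} [CommRing A] [CommRing B] [CommRing R] [Algebra A B] [Algebra A R]
variable {M N : Type*} [AddCommGroup M] [Module B M] [AddCommGroup N] [Module A N]

/-- Base change of scalars along `f`. -/
noncomputable def phi (N : Type*) [AddCommGroup N] [Module A N] (f : B →ₐ[A] R) :
    (B ⊗[A] N) →ₗ[A] (R ⊗[A] N) :=
  LinearMap.rTensor N f.toLinearMap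

theorem phi_tmul (f : B →ₐ[A] R) (b : B) (n : N) : phi N f (b ⊗ₜ n) = f b ⊗ₜ n := rfl

theorem phi_smul (f : B →ₐ[A] R) (b : B) (w : B ⊗[A] N) : phi N f (b • w) = f b • phi N f w := by
  induction w using TensorProduct.induction_on with
  | zero => simp
  | tmul c n =>
    rw [TensorProduct.smul_tmul', phi_tmul, phi_tmul, TensorProduct.smul_tmul', smul_eq_mul,
      smul_eq_mul, map_mul]
  | add x y hx hy => rw [smul_add, map_add, map_add, smul_add, hx, hy]

variable (ℓ : M →ₗ[B] B) (e : M ≃ₗ[B] B ⊗[A] N)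

/-- The linear functional on `N` induced by `ℓ`. -/
noncomputable def LL (f : B →ₐ[A] R) : N →ₗ[A] R where
  toFun n := f (ℓ (e.symm (1 ⊗ₜ n)))
  map_add' a b := by rw [TensorProduct.tmul_add, map_add, map_add, map_add]
  map_smul' c a := by
    have h : (1 : B) ⊗ₜ[A] (c • a) = (algebraMap A B c) • ((1 : B) ⊗ₜ[A] a) := by
      rw [TensorProduct.smul_tmul', smul_eq_mul, mul_one, TensorProduct.tmul_smul,
        TensorProduct.smul_tmul', Algebra.smul_def, mul_one]
    rw [h, map_smul, map_smul, smul_eq_mul, map_mul, AlgHom.commutes, RingHom.id_apply,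
      Algebra.smul_def]

/-- The induced functional on `R ⊗ N`. -/
noncomputable def lam (f : B →ₐ[A] R) : (R ⊗[A] N) →ₗ[R] R :=
  (LL ℓ e f).liftBaseChange R

theorem lam_tmul (f : B →ₐ[A] R) (r : R) (n : N) :
    lam ℓ e f (r ⊗ₜ n) = r * f (ℓ (e.symm (1 ⊗ₜ n))) := by
  rw [lam, LinearMap.liftBaseChange_tmul]
  rfl

theorem lam_phi (f : B →ₐ[A] R) (w : B ⊗[A] N) :
    lam ℓ e f (phi N f w) = f (ℓ (e.symm w)) := by
  induction w using TensorProduct.induction_on with
  | zero => simp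
  | tmul c n =>
    have h : c ⊗ₜ[A] n = c • ((1 : B) ⊗ₜ[A] n) := by
      rw [TensorProduct.smul_tmul', smul_eq_mul, mul_one]
    rw [phi_tmul, lam_tmul, h, map_smul, map_smul, smul_eq_mul, map_mul]
  | add x y hx hy => rw [map_add, map_add, map_add, map_add, map_add, hx, hy]

variable {ℓ}

theorem lam_comm (hcomm : ∀ z w : M, ℓ z • w = ℓ w • z) (f : B →ₐ[A] R) (p q : R ⊗[A] N) :
    lam ℓ e f p • q = lam ℓ e f q • p := by
  have tm : ∀ (r : R) (n : N), r ⊗ₜ[A] n = r • phi N f (e (e.symm (1 ⊗ₜ n))) := by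
    intro r n
    rw [e.apply_symm_apply, phi_tmul, map_one, TensorProduct.smul_tmul', smul_eq_mul, mul_one]
  induction p using TensorProduct.induction_on with
  | zero => simp
  | tmul r n =>
    induction q using TensorProduct.induction_on with
    | zero => simp
    | tmul r' n' =>
      rw [lam_tmul, lam_tmul, tm r n, tm r' n', smul_smul, smul_smul]
      have h1 := congrArg (fun z => phi N f (e z))
        (hcomm (e.symm (1 ⊗ₜ n)) (e.symm (1 ⊗ₜ n')))
      rw [e.map_smul, e.map_smul, phi_smul, phi_smul] at h1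
      have h2 : r * f (ℓ (e.symm (1 ⊗ₜ[A] n))) * r' = (r * r') * f (ℓ (e.symm (1 ⊗ₜ[A] n))) := by
        ring
      have h3 : r' * f (ℓ (e.symm (1 ⊗ₜ[A] n'))) * r =
          (r * r') * f (ℓ (e.symm (1 ⊗ₜ[A] n'))) := by ring
      rw [h2, h3, mul_smul (r * r'), h1, ← mul_smul (r * r')]
    | add x y hx hy => rw [smul_add, map_add, add_smul, hx, hy]
  | add x y hx hy => rw [map_add, add_smul, smul_add, hx, hy]

theorem lam_range {m1 m2 : M} (hspan : ∀ z : M, ∃ b1 b2 : B, z = b1 • m1 + b2 • m2)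
    (f : B →ₐ[A] R) (p : R ⊗[A] N) :
    ∃ r1 r2 : R, lam ℓ e f p = r1 * f (ℓ m1) + r2 * f (ℓ m2) := by
  induction p using TensorProduct.induction_on with
  | zero => exact ⟨0, 0, by simp⟩
  | tmul r n =>
    obtain ⟨b1, b2, hb⟩ := hspan (e.symm (1 ⊗ₜ n))
    refine ⟨r * f b1, r * f b2, ?_⟩
    rw [lam_tmul, hb, map_add, map_smul, map_smul, smul_eq_mul, smul_eq_mul, map_add, map_mul,
      map_mul]
    ring
  | add x y hx hy =>
    obtain ⟨a1, a2, ha⟩ := hx
    obtain ⟨b1, b2, hb⟩ := hy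
    refine ⟨a1 + b1, a2 + b2, ?_⟩
    rw [map_add, ha, hb]
    ring

include e in
theorem mod_part (f0 f1 : B →ₐ[A] R) {m1 m2 : M}
    (hspan : ∀ z : M, ∃ b1 b2 : B, z = b1 • m1 + b2 • m2)
    (hcomm : ∀ z w : M, ℓ z • w = ℓ w • z) :
    ∃ g h k l : R, g * h = f0 (ℓ m1) * f1 (ℓ m1) ∧
      (∃ r1 r2 : R, g = r1 * f1 (ℓ m1) + r2 * f1 (ℓ m2)) ∧
      (∃ r1 r2 : R, h = r1 * f0 (ℓ m1) + r2 * f0 (ℓ m2)) ∧
      f0 (ℓ m1) * k = f0 (ℓ m2) * g ∧ f1 (ℓ m1) * l = f1 (ℓ m2) * h := by
  refine ⟨lam ℓ e f1 (phi N f0 (e m1)), lam ℓ e f0 (phi N f1 (e m1)),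
    lam ℓ e f1 (phi N f0 (e m2)), lam ℓ e f0 (phi N f1 (e m2)), ?_,
    lam_range e hspan f1 _, lam_range e hspan f0 _, ?_, ?_⟩
  · have h := congrArg (lam ℓ e f1)
      (lam_comm e hcomm f0 (phi N f0 (e m1)) (phi N f1 (e m1)))
    rw [map_smul, map_smul, lam_phi, lam_phi, smul_eq_mul, smul_eq_mul, e.symm_apply_apply] at h
    rw [h, mul_comm]
  · have h := congrArg (lam ℓ e f1)
      (lam_comm e hcomm f0 (phi N f0 (e m1)) (phi N f0 (e m2)))
    rw [map_smul, map_smul, lam_phi, lam_phi, smul_eq_mul, smul_eq_mul, e.symm_apply_apply,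
      e.symm_apply_apply] at h
    exact h
  · have h := congrArg (lam ℓ e f0)
      (lam_comm e hcomm f1 (phi N f1 (e m1)) (phi N f1 (e m2)))
    rw [map_smul, map_smul, lam_phi, lam_phi, smul_eq_mul, smul_eq_mul, e.symm_apply_apply,
      e.symm_apply_apply] at h
    exact h

end

section idem

variable {B : Type*} [CommRing B]

/-- The second coordinate on the range of a matrix. -/
noncomputable def ellE (E : Matrix (Fin 2) (Fin 2) B) :
    LinearMap.range E.mulVecLin →ₗ[B] B :=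
  (LinearMap.proj 1).comp (LinearMap.range E.mulVecLin).subtype

/-- The columns of the matrix. -/
noncomputable def colE (E : Matrix (Fin 2) (Fin 2) B) (j : Fin 2) :
    LinearMap.range E.mulVecLin :=
  ⟨E.mulVecLin (Pi.single j 1), LinearMap.mem_range_self _ _⟩

theorem colE_apply (E : Matrix (Fin 2) (Fin 2) B) (j i : Fin 2) : (colE E j).1 i = E i j := by
  simp [colE]

theorem ellE_col (E : Matrix (Fin 2) (Fin 2) B) (j : Fin 2) : ellE E (colE E j) = E 1 j :=
  colE_apply E j 1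

theorem span_colE (E : Matrix (Fin 2) (Fin 2) B) (z : LinearMap.range E.mulVecLin) :
    ∃ b1 b2 : B, z = b1 • colE E 0 + b2 • colE E 1 := by
  obtain ⟨z, w, rfl⟩ := z
  refine ⟨w 0, w 1, Subtype.ext (funext fun i => ?_)⟩
  have h : ((w 0 • colE E 0 + w 1 • colE E 1 : LinearMap.range E.mulVecLin)).1 i =
      w 0 * (colE E 0).1 i + w 1 * (colE E 1).1 i := rfl
  rw [h, colE_apply, colE_apply]
  simp only [Matrix.mulVecLin_apply, Matrix.mulVec, dotProduct, Fin.sum_univ_two]
  ring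

theorem comm_ellE (E : Matrix (Fin 2) (Fin 2) B) (hdet : E 0 0 * E 1 1 = E 0 1 * E 1 0)
    (z w : LinearMap.range E.mulVecLin) : ellE E z • w = ellE E w • z := by
  obtain ⟨a1, a2, rfl⟩ := span_colE E z
  obtain ⟨b1, b2, rfl⟩ := span_colE E w
  refine Subtype.ext (funext fun i => ?_)
  simp only [map_add, map_smul, ellE_col, smul_eq_mul]
  have h : ∀ (c d1 d2 : B), ((c • (d1 • colE E 0 + d2 • colE E 1) :
      LinearMap.range E.mulVecLin)).1 i = c * (d1 * E i 0 + d2 * E i 1) := by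
    intro c d1 d2
    rw [← colE_apply E 0 i, ← colE_apply E 1 i]
    rfl
  rw [h, h]
  fin_cases i
  · simp only [Fin.zero_eta]
    linear_combination (a2 * b1 - a1 * b2) * hdet
  · simp only [Fin.mk_one]
    ring

theorem projective_of_idem (E : Matrix (Fin 2) (Fin 2) B) (hE : E * E = E) :
    Module.Projective B (LinearMap.range E.mulVecLin) := by
  refine Module.Projective.of_split (LinearMap.range E.mulVecLin).subtype
    E.mulVecLin.rangeRestrict ?_
  ext z : 1
  obtain ⟨z, w, rfl⟩ := z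
  apply Subtype.ext
  change E.mulVecLin (E.mulVecLin w) = E.mulVecLin w
  rw [← LinearMap.comp_apply, ← Matrix.mulVecLin_mul, hE]

theorem finite_range (E : Matrix (Fin 2) (Fin 2) B) :
    Module.Finite B (LinearMap.range E.mulVecLin) := Module.Finite.range _

end idem

end BQAff
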