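import Mathlib
import Pool.Agent.Lib.MP_d3e341_ag.Tate
import Pool.Agent.Lib.MP_d3e341_ag.EvalGen

/-!
# Evaluation of restricted power series in several variables in a Banach algebra
-/

set_option linter.unusedSectionVars false

open Filter Topology Finset

namespace BQAff

variable {K : Type*} [NontriviallyNormedField K] [IsUltrametricDist K]
variable {R : Type*} [NormedCommRing R] [NormedAlgebra K R] [NormOneClass R]
  [IsUltrametricDist R] [CompleteSpace R]
variable {σ τ : Type*}

/-- The monomial `r^t`. -/
noncomputable def mono (r : σ → R) (t : σ →₀ ℕ) : R := t.prod (fun i k => r i ^ k)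

theorem norm_mono_le (r : σ → R) (hr : ∀ i, ‖r i‖ ≤ 1) (t : σ →₀ ℕ) : ‖mono r t‖ ≤ 1 := by
  rw [mono, Finsupp.prod]
  refine (Finset.norm_prod_le _ _).trans (Finset.prod_le_one (fun _ _ => norm_nonneg _) ?_)
  intro i _
  exact (norm_pow_le _ _).trans (pow_le_one₀ (norm_nonneg _) (hr i))

theorem mono_add (r : σ → R) (s t : σ →₀ ℕ) : mono r (s + t) = mono r s * mono r t := by
  classical
  exact Finsupp.prod_add_index' (fun _ => pow_zero _) (fun _ _ _ => pow_add _ _ _)

theorem tendsto_term (r : σ → R) (hr : ∀ i, ‖r i‖ ≤ 1) (f : Res K σ) :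
    Tendsto (fun t : σ →₀ ℕ => algebraMap K R (cf t f) * mono r t)
      cofinite (𝓝 0) := by
  rw [tendsto_zero_iff_norm_tendsto_zero]
  have h := tendsto_cf f
  rw [tendsto_zero_iff_norm_tendsto_zero] at h
  refine squeeze_zero (fun _ => norm_nonneg _) (fun t => ?_) h
  refine (norm_mul_le _ _).trans ?_
  rw [norm_algebraMap, norm_one, mul_one]
  exact mul_le_of_le_one_right (norm_nonneg _) (norm_mono_le r hr t)

/-- Evaluation at a tuple of power-bounded elements. -/
noncomputable def evT (r : σ → R) (hr : ∀ i, ‖r i‖ ≤ 1) : Res K σ →ₐ[K] R :=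
  { toFun := fun f => ∑' t : σ →₀ ℕ, algebraMap K R (cf t f) * mono r t
    map_zero' := by simp [cf_zero]
    map_one' := by
      classical
      rw [tsum_eq_single 0]
      · simp [mono, cf_one]
      · intro t ht
        rw [cf_one, if_neg ht, map_zero, zero_mul]
    map_add' := fun f g => by
      have h : ∀ t : σ →₀ ℕ,
          algebraMap K R (cf t (f + g)) * mono r t =
          algebraMap K R (cf t f) * mono r t +
          algebraMap K R (cf t g) * mono r t := fun t => by
        rw [← add_mul, ← map_add, cf_add]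
      simp only [h]
      exact (summable_of_tendsto (tendsto_term r hr f)).tsum_add
        (summable_of_tendsto (tendsto_term r hr g))
    map_mul' := fun f g => by
      classical
      rw [tsum_mul_tsum_conv _ _ (summable_of_tendsto (tendsto_term r hr f))
        (summable_of_tendsto (tendsto_term r hr g))]
      refine tsum_congr (fun t => ?_)
      rw [cf_mul, map_sum, sum_mul]
      refine sum_congr rfl (fun p hp => ?_)
      rw [HasAntidiagonal.mem_antidiagonal] at hp
      rw [← hp, mono_add, map_mul]
      ring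
    commutes' := fun c => by
      classical
      rw [tsum_eq_single 0]
      · simp [mono, cf_algebraMap]
      · intro t ht
        rw [cf_algebraMap, if_neg ht, map_zero, zero_mul] }

theorem evT_apply (r : σ → R) (hr : ∀ i, ‖r i‖ ≤ 1) (f : Res K σ) :
    evT (K := K) r hr f =
      ∑' t : σ →₀ ℕ, algebraMap K R (cf t f) * mono r t := rfl

theorem norm_evT_le (r : σ → R) (hr : ∀ i, ‖r i‖ ≤ 1) (f : Res K σ) {C : ℝ} (hC : 0 ≤ C)
    (h : ∀ t, ‖cf t f‖ ≤ C) : ‖evT (K := K) r hr f‖ ≤ C := by
  rw [evT_apply]
  refine norm_tsum_le_of _ hC (fun t => (norm_mul_le _ _).trans ?_)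
  rw [norm_algebraMap, norm_one, mul_one]
  exact (mul_le_of_le_one_right (norm_nonneg _) (norm_mono_le r hr t)).trans (h t)

/-- The variables. -/
noncomputable def var (i : σ) : Res K σ := ⟨MvPowerSeries.X i,
  (isRestricted_iff_tendsto K _).1 (MvPowerSeries.isRestricted_monomial _ _ _)⟩

theorem cf_var [DecidableEq σ] (i : σ) (t : σ →₀ ℕ) :
    cf t (var (K := K) i) = if t = Finsupp.single i 1 then 1 else 0 := by
  change MvPowerSeries.coeff t (MvPowerSeries.X i) = _
  rw [MvPowerSeries.coeff_X]

theorem evT_var (r : σ → R) (hr : ∀ i, ‖r i‖ ≤ 1) (i : σ) :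
    evT (K := K) r hr (var i) = r i := by
  classical
  rw [evT_apply, tsum_eq_single (Finsupp.single i 1)]
  · rw [cf_var, if_pos rfl, map_one, one_mul, mono]
    simp
  · intro t ht
    rw [cf_var, if_neg ht, map_zero, zero_mul]

end BQAff
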