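import Mathlib
import Pool.Agent.Lib.MP_d3e341_ag.TEval

/-!
# The auxiliary series in one variable
-/

set_option linter.unusedSectionVars false

open Filter Topology Finset

namespace BQAff

variable {K : Type*} [NontriviallyNormedField K] [IsUltrametricDist K]

/-- `expand m (rescale a F)` for a series `F` with coefficients of norm at most one. -/
theorem expand_mem {m : ℕ} (hm : m ≠ 0) {a : K} (ha : ‖a‖ < 1) (F : PowerSeries K)
    (hF : ∀ n, ‖PowerSeries.coeff n F‖ ≤ 1) :
    (PowerSeries.expand m hm (PowerSeries.rescale a F) : MvPowerSeries Unit K) ∈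
      restricted K Unit := by
  have h : PowerSeries.IsRestricted (1 : ℝ)
      (PowerSeries.expand m hm (PowerSeries.rescale a F)) := by
    rw [PowerSeries.isRestricted_iff]
    simp only [one_pow, mul_one]
    have hgeo : Tendsto (fun n : ℕ => ‖a‖ ^ n) atTop (𝓝 0) :=
      tendsto_pow_atTop_nhds_zero_of_lt_one (norm_nonneg _) ha
    have hdiv : Tendsto (fun n : ℕ => n / m) atTop atTop :=
      Nat.tendsto_div_const_atTop (by omega)
    rw [Nat.cofinite_eq_atTop]
    refine squeeze_zero (fun _ => norm_nonneg _) (fun n => ?_) (hgeo.comp hdiv)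
    rw [PowerSeries.coeff_expand]
    split_ifs with hd
    · rw [PowerSeries.coeff_rescale, norm_mul, norm_pow]
      exact mul_le_of_le_one_right (by positivity) (hF _)
    · rw [norm_zero]; exact pow_nonneg (norm_nonneg _) _
  exact (isRestricted_iff_tendsto K _).1 h

theorem norm_coeff_expand_le {m : ℕ} (hm : m ≠ 0) {a : K} (ha : ‖a‖ < 1) (F : PowerSeries K)
    (hF : ∀ n, ‖PowerSeries.coeff n F‖ ≤ 1) (t : Unit →₀ ℕ) :
    ‖MvPowerSeries.coeff t
      (PowerSeries.expand m hm (PowerSeries.rescale a F) : MvPowerSeries Unit K)‖ ≤ 1 := by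
  have ht : t = Finsupp.single () (t ()) := by
    ext; simp
  rw [ht]
  change ‖PowerSeries.coeff (t ()) (PowerSeries.expand m hm (PowerSeries.rescale a F))‖ ≤ 1
  rw [PowerSeries.coeff_expand]
  split_ifs with hd
  · rw [PowerSeries.coeff_rescale, norm_mul, norm_pow]
    exact mul_le_one₀ (pow_le_one₀ (norm_nonneg _) ha.le) (norm_nonneg _) (hF _)
  · rw [norm_zero]; exact zero_le_one

/-- The Catalan series over `K`. -/
noncomputable def catK (K : Type*) [NontriviallyNormedField K] : PowerSeries K :=
  PowerSeries.map (Nat.castRingHom K) PowerSeries.catalanSeries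

theorem catK_eq : catK K ^ 2 * PowerSeries.X + 1 = catK K := by
  have := congrArg (PowerSeries.map (Nat.castRingHom K))
    PowerSeries.catalanSeries_sq_mul_X_add_one
  rw [map_add, map_mul, map_pow, map_one, PowerSeries.map_X] at this
  exact this

theorem norm_coeff_catK (n : ℕ) : ‖PowerSeries.coeff n (catK K)‖ ≤ 1 := by
  rw [catK, PowerSeries.coeff_map]
  exact IsUltrametricDist.norm_natCast_le_one K _

/-- The series `1 + X + X^2 + ⋯`. -/
theorem norm_coeff_geo (n : ℕ) :
    ‖PowerSeries.coeff n (PowerSeries.mk (1 : ℕ → K))‖ ≤ 1 := by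
  rw [PowerSeries.coeff_mk, Pi.one_apply, norm_one]

theorem rescale_X' (a : K) :
    PowerSeries.rescale a (PowerSeries.X : PowerSeries K) = PowerSeries.C a * PowerSeries.X := by
  ext n
  rw [PowerSeries.coeff_rescale, PowerSeries.coeff_C_mul, PowerSeries.coeff_X]
  split_ifs with h
  · rw [h, pow_one]
  · rw [mul_zero, mul_zero]

section

variable {m : ℕ} (hm : m ≠ 0) {a : K} (ha : ‖a‖ < 1)

/-- The solution of `G = 1 + a t^m G^2`. -/
noncomputable def Gs : Res K Unit := ⟨_, expand_mem hm ha (catK K) norm_coeff_catK⟩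

/-- The inverse of `1 - a t^m`. -/
noncomputable def Js : Res K Unit :=
  ⟨_, expand_mem hm ha (PowerSeries.mk (1 : ℕ → K)) norm_coeff_geo⟩

theorem Gs_eq : Gs hm ha ^ 2 * (algebraMap K (Res K Unit) a * var () ^ m) + 1 = Gs hm ha := by
  apply Subtype.ext
  have h := congrArg (fun F => PowerSeries.expand m hm (PowerSeries.rescale a F)) (catK_eq (K := K))
  simp only [map_add, map_mul, map_pow, map_one, rescale_X', PowerSeries.expand_X,
    PowerSeries.expand_C] at h
  exact h

theorem Js_eq : Js hm ha * (1 - algebraMap K (Res K Unit) a * var () ^ m) = 1 := by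
  apply Subtype.ext
  have h := congrArg (fun F => PowerSeries.expand m hm (PowerSeries.rescale a F))
    (PowerSeries.mk_one_mul_one_sub_eq_one K)
  simp only [map_sub, map_mul, map_one, rescale_X', PowerSeries.expand_X,
    PowerSeries.expand_C] at h
  exact h

end

end BQAff
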