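import Mathlib
import Pool.Agent.Lib.MP_d3e341_ag.Defs
import Pool.Agent.Lib.MP_d3e341_ag.Series
import Pool.Agent.Lib.MP_d3e341_ag.Contra
import Pool.Agent.Lib.MP_d3e341_ag.ModPart

/-!
# The smooth affinoid curve `y^2 - d y = x^m` and the module which is not extended
-/

set_option linter.unusedSectionVars false

open Filter Topology Finset

universe u

namespace BQAff

variable {K : Type u} [NontriviallyNormedField K] [IsUltrametricDist K]

/-- The equation `y^2 - d y - x^m`. -/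
noncomputable def fpoly (m : ℕ) (d : K) : Tate K 2 :=
  var 1 ^ 2 - algebraMap K _ d * var 1 - var 0 ^ m

/-- The ideal of the curve. -/
noncomputable def II (m : ℕ) (d : K) : Ideal (Tate K 2) := Ideal.span {fpoly m d}

theorem pd_fpoly_zero (m : ℕ) (d : K) :
    pd 0 (fpoly m d) = -(algebraMap K _ (m : K) * var 0 ^ (m - 1)) := by
  apply Subtype.ext
  change MvPowerSeries.pderiv K 0 (MvPowerSeries.X 1 ^ 2 - MvPowerSeries.C d * MvPowerSeries.X 1
    - MvPowerSeries.X 0 ^ m) = -(MvPowerSeries.C (m : K) * MvPowerSeries.X 0 ^ (m - 1))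
  rw [map_sub, map_sub, Derivation.leibniz, MvPowerSeries.pderiv_pow, MvPowerSeries.pderiv_pow,
    MvPowerSeries.pderiv_X_self, MvPowerSeries.pderiv_X_of_ne (by decide),
    MvPowerSeries.pderiv_C]
  simp

theorem pd_fpoly_one (m : ℕ) (d : K) :
    pd 1 (fpoly m d) = 2 * var 1 - algebraMap K _ d := by
  apply Subtype.ext
  change MvPowerSeries.pderiv K 1 (MvPowerSeries.X 1 ^ 2 - MvPowerSeries.C d * MvPowerSeries.X 1
    - MvPowerSeries.X 0 ^ m) = 2 * MvPowerSeries.X 1 - MvPowerSeries.C d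
  rw [map_sub, map_sub, Derivation.leibniz, MvPowerSeries.pderiv_pow, MvPowerSeries.pderiv_pow,
    MvPowerSeries.pderiv_X_self, MvPowerSeries.pderiv_X_of_ne (by decide),
    MvPowerSeries.pderiv_C]
  simp

theorem isUnit_algebraMap {n : ℕ} {c : K} (hc : c ≠ 0) : IsUnit (algebraMap K (Tate K n) c) :=
  (isUnit_iff_ne_zero.2 hc).map _

/-- The curve is smooth. -/
theorem isSmooth_II {m : ℕ} (hm : 2 ≤ m) {d : K} (hd : d ≠ 0) (hmK : (m : K) ≠ 0) :
    IsSmooth (II m d) := by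
  intro 𝔪 h𝔪 hle
  have hf : fpoly m d ∈ II m d := Ideal.subset_span rfl
  have hgen : ∀ h ∈ II m d, ∃ s : Tate K 2, s ∉ 𝔪 ∧
      s * h ∈ Ideal.span (Set.range (fun _ : Fin 1 => fpoly m d)) := by
    intro h hh
    refine ⟨1, fun h1 => h𝔪.ne_top ((Ideal.eq_top_iff_one _).2 h1), ?_⟩
    rw [one_mul, Set.range_const]
    exact hh
  by_cases h1 : pd 1 (fpoly m d) ∈ 𝔪
  · refine ⟨1, fun _ => fpoly m d, fun _ => 0, fun _ => hf, hgen, ?_⟩
    rw [jac, Matrix.det_unique]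
    change pd 0 (fpoly m d) ∉ 𝔪
    intro h0
    rw [pd_fpoly_zero, neg_mem_iff] at h0
    have h2 : var 0 ^ (m - 1) ∈ 𝔪 :=
      (h𝔪.isPrime.mem_or_mem h0).resolve_left
        (fun h => h𝔪.ne_top (Ideal.eq_top_of_isUnit_mem _ h (isUnit_algebraMap hmK)))
    have h3 : (var 0 : Tate K 2) ^ m ∈ 𝔪 := by
      have : (var 0 : Tate K 2) ^ m = var 0 * var 0 ^ (m - 1) := by
        rw [← pow_succ']; congr 1; omega
      rw [this]
      exact Ideal.mul_mem_left _ _ h2
    rw [pd_fpoly_one] at h1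
    have h4 := hle hf
    have h5 : algebraMap K (Tate K 2) (d ^ 2) ∈ 𝔪 := by
      have : algebraMap K (Tate K 2) (d ^ 2) =
          (2 * var 1 - algebraMap K _ d) * (2 * var 1 - algebraMap K _ d)
          - 4 * (fpoly m d) - 4 * var 0 ^ m := by
        rw [fpoly, map_pow]; ring
      rw [this]
      exact sub_mem (sub_mem (Ideal.mul_mem_left _ _ h1) (Ideal.mul_mem_left _ _ h4))
        (Ideal.mul_mem_left _ _ h3)
    exact h𝔪.ne_top (Ideal.eq_top_of_isUnit_mem _ h5 (isUnit_algebraMap (pow_ne_zero 2 hd)))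
  · refine ⟨1, fun _ => fpoly m d, fun _ => 1, fun _ => hf, hgen, ?_⟩
    rw [jac, Matrix.det_unique]
    exact h1

/-! ### The family of points -/

section family

variable {m : ℕ} {d : K}

theorem norm_a_lt (hm3 : 3 ≤ m) (hd : ‖d‖ < 1) : ‖-d ^ (m - 2)‖ < 1 := by
  rw [norm_neg, norm_pow]
  exact pow_lt_one₀ (norm_nonneg _) hd (by omega)

theorem norm_b_lt (hm3 : 3 ≤ m) (hd : ‖d‖ < 1) : ‖-(4 * d ^ (m - 2))‖ < 1 := by
  rw [norm_neg, norm_mul]
  have h4 : ‖(4 : K)‖ ≤ 1 := by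
    have := IsUltrametricDist.norm_natCast_le_one K 4
    exact_mod_cast this
  have h2 : ‖d ^ (m - 2)‖ < 1 := by
    rw [norm_pow]; exact pow_lt_one₀ (norm_nonneg _) hd (by omega)
  exact (mul_le_of_le_one_left (norm_nonneg _) h4).trans_lt h2

/-- The `y`-coordinate of the family of points `x = d t`. -/
noncomputable def etaU (hm3 : 3 ≤ m) (hd : ‖d‖ < 1) : Res K Unit :=
  -(algebraMap K _ d * (algebraMap K _ (d ^ (m - 2)) * var () ^ m) *
    Gs (by omega : m ≠ 0) (norm_a_lt hm3 hd))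

/-- The inverse of `d - 2 η`. -/
noncomputable def alphaU (hm3 : 3 ≤ m) (hd : ‖d‖ < 1) : Res K Unit :=
  (algebraMap K _ d - 2 * etaU hm3 hd) * algebraMap K _ ((d ^ 2)⁻¹) *
    Js (by omega : m ≠ 0) (norm_b_lt hm3 hd)

theorem etaU_eq (hm3 : 3 ≤ m) (hd : ‖d‖ < 1) :
    etaU hm3 hd ^ 2 - algebraMap K _ d * etaU hm3 hd = algebraMap K _ (d ^ m) * var () ^ m := by
  have h := Gs_eq (by omega : m ≠ 0) (norm_a_lt hm3 hd)
  rw [map_neg, map_pow] at h
  have hm' : d ^ m = d ^ 2 * d ^ (m - 2) := by rw [← pow_add]; congr 1; omega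
  rw [hm', map_mul, map_pow, map_pow, etaU, map_pow]
  linear_combination (-(algebraMap K (Res K Unit) d) ^ 2 *
    (algebraMap K (Res K Unit) d) ^ (m - 2) * var () ^ m) * h

theorem alphaU_eq (hm3 : 3 ≤ m) (hd : ‖d‖ < 1) (hd0 : d ≠ 0) :
    alphaU hm3 hd * (algebraMap K _ d - 2 * etaU hm3 hd) = 1 := by
  have h := Js_eq (by omega : m ≠ 0) (norm_b_lt hm3 hd)
  have he := etaU_eq hm3 hd
  have hm' : d ^ m = d ^ 2 * d ^ (m - 2) := by rw [← pow_add]; congr 1; omega
  have hinv : algebraMap K (Res K Unit) ((d ^ 2)⁻¹) *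
      algebraMap K (Res K Unit) (d ^ 2) = 1 := by
    rw [← map_mul, inv_mul_cancel₀ (pow_ne_zero 2 hd0), map_one]
  rw [hm', map_mul] at he
  rw [map_neg, map_mul] at h
  have h4 : algebraMap K (Res K Unit) 4 = 4 := map_ofNat _ 4
  rw [h4] at h
  rw [map_pow] at he hinv
  rw [alphaU]
  linear_combination (4 * algebraMap K (Res K Unit) ((d ^ 2)⁻¹) *
    Js (by omega : m ≠ 0) (norm_b_lt hm3 hd)) * he + h +
    (Js (by omega : m ≠ 0) (norm_b_lt hm3 hd) *
      (1 + 4 * algebraMap K (Res K Unit) (d ^ (m - 2)) * var () ^ m)) * hinv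

end family

end BQAff
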