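import Mathlib
import Pool.Agent.Lib.MP_d3e341_ag.Curve
import Pool.Agent.Lib.MP_d3e341_ag.ContraQ

/-!
# The module over `A<T>` and its specialisations
-/

set_option linter.unusedSectionVars false

open Filter Topology Finset
open scoped TensorProduct

universe u

namespace BQAff

section evaluation

variable {K : Type*} [NontriviallyNormedField K] [IsUltrametricDist K] [CompleteSpace K]
variable {R : Type*} [NormedCommRing R] [NormedAlgebra K R] [NormOneClass R]
  [IsUltrametricDist R] [CompleteSpace R]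
variable {σ : Type*}

theorem evT_algebraMap (r : σ → K) (hr : ∀ i, ‖r i‖ ≤ 1) (hr' : ∀ i, ‖algebraMap K R (r i)‖ ≤ 1)
    (f : Res K σ) :
    evT (K := K) (R := R) (fun i => algebraMap K R (r i)) hr' f =
      algebraMap K R (evT (K := K) (R := K) r hr f) := by
  rw [evT_apply, evT_apply]
  have hs := (summable_of_tendsto (tendsto_term (R := K) r hr f)).hasSum
  have h := hs.map (algebraMap K R) (algebraMapCLM K R).continuous
  rw [← h.tsum_eq]
  refine tsum_congr (fun t => ?_)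
  rw [Function.comp_apply, map_mul]
  simp [mono, Finsupp.prod, map_prod]

end evaluation

variable {K : Type u} [NontriviallyNormedField K] [IsUltrametricDist K]

section points

variable [CompleteSpace K] {m : ℕ} {d : K} (hm3 : 3 ≤ m) (hd : ‖d‖ < 1)

/-- The value of `η` at `τ`. -/
noncomputable def eV (τ : K) (hτ : ‖τ‖ ≤ 1) : K :=
  evT (K := K) (R := K) (fun _ : Unit => τ) (fun _ => hτ) (etaU hm3 hd)

/-- The value of `α` at `τ`. -/
noncomputable def aV (τ : K) (hτ : ‖τ‖ ≤ 1) : K :=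
  evT (K := K) (R := K) (fun _ : Unit => τ) (fun _ => hτ) (alphaU hm3 hd)

theorem eV_eq (τ : K) (hτ : ‖τ‖ ≤ 1) :
    eV hm3 hd τ hτ ^ 2 - d * eV hm3 hd τ hτ = d ^ m * τ ^ m := by
  have h := congrArg (evT (K := K) (R := K) (fun _ : Unit => τ) (fun _ => hτ)) (etaU_eq hm3 hd)
  simp only [map_sub, map_mul, map_pow, evT_var, AlgHom.commutes] at h
  exact h

theorem aV_eq (hd0 : d ≠ 0) (τ : K) (hτ : ‖τ‖ ≤ 1) :
    aV hm3 hd τ hτ * (d - 2 * eV hm3 hd τ hτ) = 1 := by
  have h := congrArg (evT (K := K) (R := K) (fun _ : Unit => τ) (fun _ => hτ))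
    (alphaU_eq hm3 hd hd0)
  rw [map_mul, map_sub, map_mul, map_one, AlgHom.commutes, map_ofNat] at h
  exact h

theorem aV_ne_zero (hd0 : d ≠ 0) (τ : K) (hτ : ‖τ‖ ≤ 1) : aV hm3 hd τ hτ ≠ 0 :=
  left_ne_zero_of_mul_eq_one (aV_eq hm3 hd hd0 τ hτ)

theorem eV_form (τ : K) (hτ : ‖τ‖ ≤ 1) :
    ∃ G : K, ‖G‖ ≤ 1 ∧ eV hm3 hd τ hτ = -(d * (d ^ (m - 2) * τ ^ m) * G) := by
  refine ⟨evT (K := K) (R := K) (fun _ : Unit => τ) (fun _ => hτ)
    (Gs (by omega : m ≠ 0) (norm_a_lt hm3 hd)), ?_, ?_⟩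
  · exact norm_evT_le _ _ _ zero_le_one
      (norm_coeff_expand_le _ (norm_a_lt hm3 hd) _ norm_coeff_catK)
  · rw [eV, etaU]
    simp only [map_neg, map_mul, map_pow, evT_var, AlgHom.commutes]
    rfl

theorem eV_zero (h0 : ‖(0 : K)‖ ≤ 1) : eV hm3 hd 0 h0 = 0 := by
  obtain ⟨G, -, h⟩ := eV_form hm3 hd 0 h0
  rw [h, zero_pow (by omega)]
  ring

theorem norm_eV_le (τ : K) (hτ : ‖τ‖ ≤ 1) : ‖eV hm3 hd τ hτ‖ ≤ ‖d‖ := by
  obtain ⟨G, hG, h⟩ := eV_form hm3 hd τ hτ
  rw [h, norm_neg, norm_mul, norm_mul, norm_mul, norm_pow, norm_pow]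
  have h1 : ‖d‖ ^ (m - 2) ≤ 1 := pow_le_one₀ (norm_nonneg _) hd.le
  have h2 : ‖τ‖ ^ m ≤ 1 := pow_le_one₀ (norm_nonneg _) hτ
  have h3 : ‖d‖ ^ (m - 2) * ‖τ‖ ^ m ≤ 1 := mul_le_one₀ h1 (by positivity) h2
  rw [mul_assoc]
  exact mul_le_of_le_one_right (norm_nonneg _) (mul_le_one₀ h3 (norm_nonneg _) hG)

end points

section embed

variable {σ : Type*} {n : ℕ} (I : Ideal (Tate K n))

theorem gauss_algebraMap_le (c : K) : gauss (algebraMap K (Res K σ) c) ≤ ‖c‖ := by
  classical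
  refine gauss_le (fun t => ?_)
  rw [cf_algebraMap]
  split_ifs
  · exact le_rfl
  · rw [norm_zero]; exact norm_nonneg _

/-- The constants `K → A`. -/
noncomputable def kA : K →+* Aff I := (mkA I).comp (algebraMap K (Tate K n))

theorem resNorm_kA_le (c : K) : resNorm I (kA I c) ≤ ‖c‖ :=
  (resNorm_mkA_le I _).trans (gauss_algebraMap_le c)

theorem map_mem_restrictedT (g : Res K Unit) :
    PowerSeries.map (kA I) (g.1 : PowerSeries K) ∈ restrictedT I := by
  change Tendsto (fun i => resNorm I (PowerSeries.coeff i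
    (PowerSeries.map (kA I) (g.1 : PowerSeries K)))) atTop (𝓝 0)
  have h1 := (tendsto_cf g).comp (Finsupp.single_injective (M := ℕ) ()).tendsto_cofinite
  rw [Nat.cofinite_eq_atTop, tendsto_zero_iff_norm_tendsto_zero] at h1
  refine squeeze_zero (fun _ => resNorm_nonneg I _) (fun i => ?_) h1
  rw [PowerSeries.coeff_map]
  exact resNorm_kA_le I _

/-- The map `K⟨T⟩ → A⟨T⟩`. -/
noncomputable def cT : Res K Unit →+* AffT I :=
  RingHom.codRestrict ((PowerSeries.map (kA I)).comp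
    (restricted K Unit).val.toRingHom : restricted K Unit →+* PowerSeries (Aff I)) (restrictedT I)
    (map_mem_restrictedT I)

theorem cfT_cT (g : Res K Unit) (i : ℕ) :
    cfT i (cT I g) = kA I (cf (Finsupp.single () i) g) := rfl

theorem cT_algebraMap (c : K) :
    cT I (algebraMap K _ c) = algebraMap (Aff I) (AffT I) (kA I c) := by
  classical
  refine cfT_ext (fun i => ?_)
  rw [cfT_cT, cfT_algebraMap, cf_algebraMap]
  have h : (Finsupp.single () i = 0) ↔ i = 0 := Finsupp.single_eq_zero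
  by_cases hi : i = 0
  · rw [if_pos hi, if_pos (h.2 hi)]
  · rw [if_neg hi, if_neg (fun h' => hi (h.1 h')), map_zero]

end embed

section matrix

variable {m : ℕ} {d : K} (hm3 : 3 ≤ m) (hd : ‖d‖ < 1)

/-- The coordinate `x` in `A⟨T⟩`. -/
noncomputable def xB (m : ℕ) (d : K) : AffT (II m d) :=
  algebraMap (Aff (II m d)) (AffT (II m d)) (mkA _ (var 0))

/-- The coordinate `y` in `A⟨T⟩`. -/
noncomputable def yB (m : ℕ) (d : K) : AffT (II m d) :=
  algebraMap (Aff (II m d)) (AffT (II m d)) (mkA _ (var 1))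

/-- The constant `d` in `A⟨T⟩`. -/
noncomputable def dB (m : ℕ) (d : K) : AffT (II m d) := cT (II m d) (algebraMap K _ d)

/-- The variable `T` in `A⟨T⟩`. -/
noncomputable def tB (m : ℕ) (d : K) : AffT (II m d) := cT (II m d) (var ())

/-- `η` in `A⟨T⟩`. -/
noncomputable def etaB : AffT (II m d) := cT (II m d) (etaU hm3 hd)

/-- `α` in `A⟨T⟩`. -/
noncomputable def alphaB : AffT (II m d) := cT (II m d) (alphaU hm3 hd)

theorem etaB_eq : etaB hm3 hd ^ 2 - dB m d * etaB hm3 hd = dB m d ^ m * tB m d ^ m := by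
  have h := congrArg (cT (II m d)) (etaU_eq hm3 hd)
  simp only [map_sub, map_mul, map_pow] at h
  exact h

theorem alphaB_eq (hd0 : d ≠ 0) : alphaB hm3 hd * (dB m d - 2 * etaB hm3 hd) = 1 := by
  have h := congrArg (cT (II m d)) (alphaU_eq hm3 hd hd0)
  rw [map_mul, map_sub, map_mul, map_one, map_ofNat] at h
  exact h

theorem mkA_fpoly (m : ℕ) (d : K) : mkA (II m d) (fpoly m d) = 0 :=
  Ideal.Quotient.eq_zero_iff_mem.2 (Ideal.subset_span rfl)

theorem curve_eq (m : ℕ) (d : K) : yB m d ^ 2 - dB m d * yB m d = xB m d ^ m := by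
  have h := congrArg (algebraMap (Aff (II m d)) (AffT (II m d))) (mkA_fpoly m d)
  rw [fpoly] at h
  simp only [map_sub, map_mul, map_pow, map_zero] at h
  rw [dB, cT_algebraMap]
  exact sub_eq_zero.1 h

/-- `u = x - d T`. -/
noncomputable def uB (m : ℕ) (d : K) : AffT (II m d) := xB m d - dB m d * tB m d

/-- `v = y - η`. -/
noncomputable def vB : AffT (II m d) := yB m d - etaB hm3 hd

/-- `v' = y - (d - η)`. -/
noncomputable def vB' : AffT (II m d) := yB m d - (dB m d - etaB hm3 hd)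

/-- `w = (x^m - (d T)^m) / (x - d T)`. -/
noncomputable def wB (m : ℕ) (d : K) : AffT (II m d) :=
  ∑ i ∈ range m, xB m d ^ i * (dB m d * tB m d) ^ (m - 1 - i)

theorem wB_mul (m : ℕ) (d : K) :
    wB m d * uB m d = xB m d ^ m - (dB m d * tB m d) ^ m := by
  exact (Commute.all _ _).geom_sum₂_mul m

theorem rel1 : vB hm3 hd * vB' hm3 hd = wB m d * uB m d := by
  rw [wB_mul, vB, vB', mul_pow]
  linear_combination curve_eq m d - etaB_eq hm3 hd

theorem rel2 (hd0 : d ≠ 0) : alphaB hm3 hd * (vB hm3 hd - vB' hm3 hd) = 1 := by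
  rw [vB, vB']
  linear_combination alphaB_eq hm3 hd hd0

/-- The idempotent matrix. -/
noncomputable def EE : Matrix (Fin 2) (Fin 2) (AffT (II m d)) :=
  !![alphaB hm3 hd * vB hm3 hd, alphaB hm3 hd * wB m d;
    -(alphaB hm3 hd * uB m d), -(alphaB hm3 hd * vB' hm3 hd)]

theorem EE_det : EE hm3 hd 0 0 * EE hm3 hd 1 1 = EE hm3 hd 0 1 * EE hm3 hd 1 0 := by
  have h := rel1 hm3 hd
  change (alphaB hm3 hd * vB hm3 hd) * -(alphaB hm3 hd * vB' hm3 hd) =
    (alphaB hm3 hd * wB m d) * -(alphaB hm3 hd * uB m d)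
  linear_combination (-(alphaB hm3 hd) ^ 2) * h

theorem EE_idem (hd0 : d ≠ 0) : EE hm3 hd * EE hm3 hd = EE hm3 hd := by
  have h := rel1 hm3 hd
  have h2 := rel2 hm3 hd hd0
  rw [EE, Matrix.mul_fin_two]
  generalize alphaB hm3 hd = a at *
  generalize vB hm3 hd = v at *
  generalize vB' hm3 hd = v' at *
  generalize wB m d = w at *
  generalize uB m d = t at *
  congr 1
  ext i j : 2
  fin_cases i <;> fin_cases j
  · change a * v * (a * v) + a * w * -(a * t) = a * v
    linear_combination (a * v) * h2 + a ^ 2 * h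
  · change a * v * (a * w) + a * w * -(a * v') = a * w
    linear_combination (a * w) * h2
  · change -(a * t) * (a * v) + -(a * v') * -(a * t) = -(a * t)
    linear_combination (-(a * t)) * h2
  · change -(a * t) * (a * w) + -(a * v') * -(a * v') = -(a * v')
    linear_combination (-(a * v')) * h2 + a ^ 2 * h

end matrix

end BQAff
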