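import Mathlib
import Pool.Agent.Lib.MP_d3e341_ag.Module

/-!
# The module is not extended
-/

set_option linter.unusedSectionVars false

open Filter Topology Finset
open scoped TensorProduct

universe u

namespace BQAff

variable {K : Type u} [NontriviallyNormedField K] [IsUltrametricDist K] [CompleteSpace K]

section evB

variable {R : Type*} [NormedCommRing R] [NormOneClass R] [IsUltrametricDist R] [CompleteSpace R]
variable {n : ℕ} {I : Ideal (Tate K n)}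

theorem tendsto_evB (ρ : Aff I →+* R) (hρ : ∀ a, ‖ρ a‖ ≤ resNorm I a) (r : R) (hr : ‖r‖ ≤ 1)
    (F : AffT I) :
    Tendsto (fun i : ℕ => ρ (cfT i F) * r ^ i) cofinite (𝓝 0) := by
  have h := tendsto_cfT F
  rw [Nat.cofinite_eq_atTop]
  rw [tendsto_zero_iff_norm_tendsto_zero]
  refine squeeze_zero (fun _ => norm_nonneg _) (fun i => ?_) h
  refine (norm_mul_le _ _).trans ?_
  have h1 : ‖r ^ i‖ ≤ 1 := (norm_pow_le _ _).trans (pow_le_one₀ (norm_nonneg _) hr)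
  exact (mul_le_of_le_one_right (norm_nonneg _) h1).trans (hρ _)

/-- Evaluation of `∑ a_i T^i` at `T = r`, given a bounded map on the coefficients. -/
noncomputable def evB (ρ : Aff I →+* R) (hρ : ∀ a, ‖ρ a‖ ≤ resNorm I a) (r : R) (hr : ‖r‖ ≤ 1) :
    AffT I →+* R where
  toFun F := ∑' i : ℕ, ρ (cfT i F) * r ^ i
  map_zero' := by simp [cfT_zero]
  map_one' := by
    rw [tsum_eq_single 0]
    · simp [cfT_one]
    · intro i hi
      rw [cfT_one, if_neg hi, map_zero, zero_mul]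
  map_add' F G := by
    simp only [cfT_add, map_add, add_mul]
    exact (summable_of_tendsto (tendsto_evB ρ hρ r hr F)).tsum_add
      (summable_of_tendsto (tendsto_evB ρ hρ r hr G))
  map_mul' F G := by
    rw [tsum_mul_tsum_conv _ _ (summable_of_tendsto (tendsto_evB ρ hρ r hr F))
      (summable_of_tendsto (tendsto_evB ρ hρ r hr G))]
    refine tsum_congr (fun i => ?_)
    rw [cfT_mul, map_sum, sum_mul]
    refine sum_congr rfl (fun p hp => ?_)
    rw [HasAntidiagonal.mem_antidiagonal] at hp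
    rw [← hp, pow_add, map_mul]
    ring

theorem evB_apply (ρ : Aff I →+* R) (hρ : ∀ a, ‖ρ a‖ ≤ resNorm I a) (r : R) (hr : ‖r‖ ≤ 1)
    (F : AffT I) : evB ρ hρ r hr F = ∑' i : ℕ, ρ (cfT i F) * r ^ i := rfl

theorem evB_algebraMap (ρ : Aff I →+* R) (hρ : ∀ a, ‖ρ a‖ ≤ resNorm I a) (r : R) (hr : ‖r‖ ≤ 1)
    (a : Aff I) : evB ρ hρ r hr (algebraMap (Aff I) (AffT I) a) = ρ a := by
  rw [evB_apply, tsum_eq_single 0]
  · rw [cfT_algebraMap, if_pos rfl, pow_zero, mul_one]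
  · intro i hi
    rw [cfT_algebraMap, if_neg hi, map_zero, zero_mul]

theorem evB_cT [NormedAlgebra K R] (ρ : Aff I →+* R) (hρ : ∀ a, ‖ρ a‖ ≤ resNorm I a)
    (hρK : ∀ c : K, ρ (kA I c) = algebraMap K R c) {τ : K} (hτ : ‖τ‖ ≤ 1)
    (hr : ‖algebraMap K R τ‖ ≤ 1) (g : Res K Unit) :
    evB ρ hρ (algebraMap K R τ) hr (cT I g) =
      algebraMap K R (evT (K := K) (R := K) (fun _ : Unit => τ) (fun _ => hτ) g) := by
  rw [evB_apply, evT_apply]
  have hs := (summable_of_tendsto (tendsto_term (R := K) (fun _ : Unit => τ)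
    (fun _ => hτ) g)).hasSum
  have h := hs.map (algebraMap K R) (algebraMapCLM K R).continuous
  rw [← h.tsum_eq]
  have hinj := Finsupp.single_injective (M := ℕ) ()
  rw [← hinj.tsum_eq]
  · refine tsum_congr (fun i => ?_)
    rw [Function.comp_apply, map_mul, cfT_cT, hρK]
    congr 1
    simp [mono]
  · intro t _
    exact ⟨t (), by ext; simp⟩

end evB

section evaluation

variable {m : ℕ} {d : K} [hF : Fact (‖d‖ < 1)]

theorem norm_QX : ‖QX m d‖ ≤ 1 := by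
  rw [Q.norm_def, QX_re, QX_im, S.norm_x, norm_zero]
  exact max_le le_rfl zero_le_one

theorem norm_QY : ‖QY m d‖ ≤ 1 := by
  rw [Q.norm_def, QY_re, QY_im, norm_one, norm_zero]
  exact max_le zero_le_one le_rfl

theorem norm_QC (c : K) : ‖QC m d c‖ = ‖c‖ := by
  rw [Q.norm_def, QC_re, QC_im, S.norm_algebraMap', norm_zero]
  exact max_eq_left (norm_nonneg _)

/-- The point `(x, y)` of `A`. -/
noncomputable def pt2 (m : ℕ) (d : K) : Fin 2 → Q K m d := ![QX m d, QY m d]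

theorem norm_pt2 (i : Fin 2) : ‖pt2 m d i‖ ≤ 1 := by
  fin_cases i
  · exact norm_QX
  · exact norm_QY

/-- Evaluation `K⟨x,y⟩ → Q`. -/
noncomputable def ev2 (m : ℕ) (d : K) [Fact (‖d‖ < 1)] : Tate K 2 →ₐ[K] Q K m d :=
  evT (pt2 m d) norm_pt2

theorem norm_ev2_le (f : Tate K 2) : ‖ev2 m d f‖ ≤ gauss f :=
  norm_evT_le _ _ f (gauss_nonneg _) (norm_cf_le_gauss f)

theorem ev2_fpoly : ev2 m d (fpoly m d) = 0 := by
  rw [fpoly]
  simp only [map_sub, map_mul, map_pow, AlgHom.commutes, ev2, evT_var]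
  exact QY_sq

/-- The map `A → Q`. -/
noncomputable def rho (m : ℕ) (d : K) [Fact (‖d‖ < 1)] : Aff (II m d) →+* Q K m d :=
  Ideal.Quotient.lift (II m d) (ev2 m d).toRingHom (fun f hf => by
    have h : II m d ≤ RingHom.ker (ev2 m d).toRingHom :=
      (Ideal.span_singleton_le_iff_mem _).2 ev2_fpoly
    exact h hf)

theorem rho_mkA (f : Tate K 2) : rho m d (mkA (II m d) f) = ev2 m d f := rfl

theorem norm_rho_le (a : Aff (II m d)) : ‖rho m d a‖ ≤ resNorm (II m d) a := by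
  refine le_of_forall_pos_le_add (fun ε hε => ?_)
  obtain ⟨f, rfl, hf⟩ := exists_lift_lt (II m d) a hε
  rw [rho_mkA]
  exact (norm_ev2_le f).trans hf.le

theorem rho_kA (c : K) : rho m d (kA (II m d) c) = algebraMap K (Q K m d) c :=
  (ev2 m d).commutes c

/-- The maps `A⟨T⟩ → Q`, `T ↦ τ`. -/
noncomputable def fT (m : ℕ) (d : K) [Fact (‖d‖ < 1)] {τ : K} (hτ : ‖τ‖ ≤ 1) :
    AffT (II m d) →+* Q K m d :=
  evB (rho m d) norm_rho_le (algebraMap K (Q K m d) τ) ((norm_QC τ).le.trans hτ)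

theorem fT_algebraMap {τ : K} (hτ : ‖τ‖ ≤ 1) (a : Aff (II m d)) :
    fT m d hτ (algebraMap (Aff (II m d)) (AffT (II m d)) a) = rho m d a :=
  evB_algebraMap _ _ _ _ a

theorem fT_cT {τ : K} (hτ : ‖τ‖ ≤ 1) (g : Res K Unit) :
    fT m d hτ (cT (II m d) g) =
      QC m d (evT (K := K) (R := K) (fun _ : Unit => τ) (fun _ => hτ) g) := by
  have hr : ‖algebraMap K (Q K m d) τ‖ ≤ 1 := (norm_QC τ).le.trans hτ
  have h := evB_cT (R := Q K m d) (rho m d) norm_rho_le rho_kA hτ hr g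
  exact h

theorem fT_xB {τ : K} (hτ : ‖τ‖ ≤ 1) : fT m d hτ (xB m d) = QX m d := by
  rw [xB, fT_algebraMap, rho_mkA]
  exact evT_var _ _ _

theorem fT_yB {τ : K} (hτ : ‖τ‖ ≤ 1) : fT m d hτ (yB m d) = QY m d := by
  rw [yB, fT_algebraMap, rho_mkA]
  exact evT_var _ _ _

theorem fT_tB {τ : K} (hτ : ‖τ‖ ≤ 1) : fT m d hτ (tB m d) = QC m d τ := by
  rw [tB, fT_cT, evT_var]

theorem fT_dB {τ : K} (hτ : ‖τ‖ ≤ 1) : fT m d hτ (dB m d) = QC m d d := by
  rw [dB, fT_cT, AlgHom.commutes]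
  rfl

theorem fT_alphaB (hm3 : 3 ≤ m) (hd : ‖d‖ < 1) {τ : K} (hτ : ‖τ‖ ≤ 1) :
    fT m d hτ (alphaB hm3 hd) = QC m d (aV hm3 hd τ hτ) := fT_cT hτ _

theorem fT_etaB (hm3 : 3 ≤ m) (hd : ‖d‖ < 1) {τ : K} (hτ : ‖τ‖ ≤ 1) :
    fT m d hτ (etaB hm3 hd) = QC m d (eV hm3 hd τ hτ) := fT_cT hτ _

theorem fT_uB {τ : K} (hτ : ‖τ‖ ≤ 1) : fT m d hτ (uB m d) = QX m d - QC m d (d * τ) := by
  rw [uB, map_sub, map_mul, fT_xB, fT_dB, fT_tB, map_mul]

theorem fT_vB' (hm3 : 3 ≤ m) (hd : ‖d‖ < 1) {τ : K} (hτ : ‖τ‖ ≤ 1) :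
    fT m d hτ (vB' hm3 hd) = QY m d - QC m d (d - eV hm3 hd τ hτ) := by
  rw [vB', map_sub, map_sub, fT_yB, fT_dB, fT_etaB, map_sub]

theorem fT_EE10 (hm3 : 3 ≤ m) (hd : ‖d‖ < 1) {τ : K} (hτ : ‖τ‖ ≤ 1) :
    fT m d hτ (EE hm3 hd 1 0) =
      QC m d (-aV hm3 hd τ hτ) * (QX m d - QC m d (d * τ)) := by
  change fT m d hτ (-(alphaB hm3 hd * uB m d)) = _
  rw [map_neg, map_mul, fT_alphaB, fT_uB, map_neg, neg_mul]

theorem fT_EE11 (hm3 : 3 ≤ m) (hd : ‖d‖ < 1) {τ : K} (hτ : ‖τ‖ ≤ 1) :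
    fT m d hτ (EE hm3 hd 1 1) =
      QC m d (-aV hm3 hd τ hτ) * (QY m d - QC m d (d - eV hm3 hd τ hτ)) := by
  change fT m d hτ (-(alphaB hm3 hd * vB' hm3 hd)) = _
  rw [map_neg, map_mul, fT_alphaB, fT_vB', map_neg, neg_mul]

end evaluation

/-- The module over `A⟨T⟩`. -/
abbrev MM {m : ℕ} {d : K} (hm3 : 3 ≤ m) (hd : ‖d‖ < 1) : Type u :=
  LinearMap.range (EE hm3 hd).mulVecLin

theorem not_extended {m : ℕ} (hm : Odd m) (hm3 : 3 ≤ m) {d : K} (hd0 : d ≠ 0) (hd : ‖d‖ < 1)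
    (N : Type*) [AddCommGroup N] [Module (Aff (II m d)) N]
    (e : MM hm3 hd ≃ₗ[AffT (II m d)] (AffT (II m d) ⊗[Aff (II m d)] N)) : False := by
  have hF : Fact (‖d‖ < 1) := ⟨hd⟩
  have h0 : ‖(0 : K)‖ ≤ 1 := by rw [norm_zero]; exact zero_le_one
  have h1 : ‖(1 : K)‖ ≤ 1 := norm_one.le
  let _ : Algebra (Aff (II m d)) (Q K m d) := (rho m d).toAlgebra
  let f0 : AffT (II m d) →ₐ[Aff (II m d)] Q K m d :=
    { fT m d h0 with commutes' := fun a => fT_algebraMap h0 a }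
  let f1 : AffT (II m d) →ₐ[Aff (II m d)] Q K m d :=
    { fT m d h1 with commutes' := fun a => fT_algebraMap h1 a }
  obtain ⟨g, h, k, l, hgh, hg, hh, hk, hl⟩ := mod_part (ℓ := ellE (EE hm3 hd)) e f0 f1
    (m1 := colE (EE hm3 hd) 0) (m2 := colE (EE hm3 hd) 1) (span_colE (EE hm3 hd))
    (comm_ellE (EE hm3 hd) (EE_det hm3 hd))
  rw [ellE_col] at hgh
  simp only [ellE_col] at hg hh hk hl
  have a0 : f0 (EE hm3 hd 1 0) = QC m d (-aV hm3 hd 0 h0) * QX m d := by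
    have := fT_EE10 (m := m) hm3 hd h0
    rw [mul_zero, map_zero, sub_zero] at this
    exact this
  have a1 : f0 (EE hm3 hd 1 1) = QC m d (-aV hm3 hd 0 h0) * (QY m d - QC m d d) := by
    have := fT_EE11 (m := m) hm3 hd h0
    rw [eV_zero, sub_zero] at this
    exact this
  have b0 : f1 (EE hm3 hd 1 0) = QC m d (-aV hm3 hd 1 h1) * (QX m d - QC m d d) := by
    have := fT_EE10 (m := m) hm3 hd h1
    rw [mul_one] at this
    exact this
  have b1 : f1 (EE hm3 hd 1 1) =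
      QC m d (-aV hm3 hd 1 h1) * (QY m d - QC m d (d - eV hm3 hd 1 h1)) :=
    fT_EE11 (m := m) hm3 hd h1
  rw [a0, b0] at hgh
  rw [b0, b1] at hg
  rw [a0, a1] at hh hk
  rw [b0, b1] at hl
  have he := eV_eq hm3 hd 1 h1
  rw [one_pow, mul_one] at he
  refine contraQ hm hm3 hd0 hd (e := d - eV hm3 hd 1 h1) ?_ ?_
    (neg_ne_zero.2 (aV_ne_zero hm3 hd hd0 0 h0)) (neg_ne_zero.2 (aV_ne_zero hm3 hd hd0 1 h1))
    g h k l hgh hg hh hk hl
  · linear_combination he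
  · rw [sub_eq_add_neg]
    refine (IsUltrametricDist.norm_add_le_max _ _).trans (max_le le_rfl ?_)
    rw [norm_neg]
    exact norm_eV_le hm3 hd 1 h1

theorem exists_odd (K : Type*) [Field K] : ∃ m : ℕ, Odd m ∧ 3 ≤ m ∧ (m : K) ≠ 0 := by
  by_cases h3 : ((3 : ℕ) : K) = 0
  · refine ⟨5, by decide, by norm_num, fun h5 => ?_⟩
    have h1 : (1 : K) = 2 * ((3 : ℕ) : K) - ((5 : ℕ) : K) := by push_cast; norm_num
    rw [h3, h5] at h1
    simp at h1
  · exact ⟨3, by decide, le_rfl, h3⟩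

/-- The main theorem. -/
theorem main (K : Type u) [NontriviallyNormedField K] [IsUltrametricDist K] [CompleteSpace K] :
    ∃ I : Ideal (Tate K 2), (∃ f, I = Ideal.span {f}) ∧ IsSmooth I ∧
      ∃ (M : Type u) (_ : AddCommGroup M) (_ : Module (AffT I) M),
        Module.Finite (AffT I) M ∧ Module.Projective (AffT I) M ∧ ¬ IsExtended I M := by
  obtain ⟨m, hodd, hm3, hmK⟩ := exists_odd K
  obtain ⟨d, hdpos, hd⟩ := NormedField.exists_norm_lt_one K
  have hd0 : d ≠ 0 := norm_pos_iff.1 hdpos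
  refine ⟨II m d, ⟨_, rfl⟩, isSmooth_II (by omega) hd0 hmK, MM hm3 hd, inferInstance,
    inferInstance, finite_range _, projective_of_idem _ (EE_idem hm3 hd hd0), ?_⟩
  rintro ⟨N, i1, i2, ⟨e⟩⟩
  exact not_extended hodd hm3 hd0 hd N e

end BQAff
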